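import Pool.Agent.H20.TQ.Geo

/-!
# [H20 TQ Cnt] THEOREM Q (MP_e49dc9_ag), chapter P3: counting sections of `n A - j H`

`count`: `A` ample, `H` without base points: `h0(n A) ≤ h0(n A - j H) + j (h0(n A) - h0(n A - H))` for all `j` and all large `n`.
-/

set_option autoImplicit false

namespace Pool.Agent.H20.TQ

open Pool.Agent.H54.RV Pool.Agent.H83.TU Pool.Agent.H83.TK Pool.Agent.H39.TK Pool.Agent.H20.TK

variable {k K : Type} [Field k] [Field K] [Algebra k K] {X : Mod k K}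

theorem bpf_pow {H : Cart X} (hB : Bpf H) (j : ℕ) : Bpf (H ^ j) := by
  intro x
  obtain ⟨s, hs, hx⟩ := hB x
  have e : ∀ y, s ^ j * (H ^ j).eq y ^ 1 = (s * H.eq y ^ 1) ^ j := fun y => by
    rw [pow_one, pow_one, pow_eq, mul_pow]
  refine ⟨s ^ j, fun y => ?_, ?_⟩
  · rw [e]
    exact (X.O y).pow_mem (hs y) _
  · show Un (X.O x) (s ^ j * (H ^ j).eq x ^ 1)
    rw [e]
    exact un_pow hx _

theorem bpf_res [CharZero k] (h : Hyp X) {H : Cart X} (hB : Bpf H) (ζ : X.P) : 0 < h0 (resD h.var ζ H) 1 := by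
  obtain ⟨s, hs1, hs2⟩ := hB ζ
  obtain ⟨A, hA⟩ := h.amp
  obtain ⟨-, -, hFZ, -⟩ := serP k K X h.var h.gen _ hA
  have := hFZ ζ (resD h.var ζ H)
  have h1 : resS h.var ζ H 1 ⟨s, hs1⟩ ≠ 0 := fun h2 => (resS_zero h.var ζ _ 1 ⟨s, hs1⟩).1 h2 hs2
  exact H32.TK.pos_of_sec _ this (resS h.var ζ H 1 ⟨s, hs1⟩).2 fun h3 => h1 (Subtype.ext h3)

theorem bpf_pos [CharZero k] (h : Hyp X) {H : Cart X} (hB : Bpf H) : 0 < h0 H 1 := by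
  obtain ⟨x⟩ := h.var.ne
  obtain ⟨s, hs1, hs2⟩ := hB x
  obtain ⟨A, hA⟩ := h.amp
  have := Pool.Agent.H24.TK.fd h.var h.gen hA H
  exact H32.TK.pos_of_sec _ this hs1 (left_ne_zero_of_mul hs2.1)

theorem count [CharZero k] (h : Hyp X) {A H : Cart X} (hA : Ample A) (hB : Bpf H) :
    ∃ n₀ : ℕ, ∀ n ≥ n₀, ∀ j : ℕ, (h0 (A ^ n) 1 : ℝ) ≤
      h0 (A ^ n * (H ^ j)⁻¹) 1 + j * ((h0 (A ^ n) 1 : ℝ) - h0 (A ^ n * H⁻¹) 1) := by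
  obtain ⟨hN, hF, hFZ, hS⟩ := serP k K X h.var h.gen _ hA
  obtain ⟨s, hs, hE⟩ := eff_of_pos _ (bpf_pos h hB)
  obtain ⟨r, ζ, c, h1, h2, -⟩ := chain_eff h.var h.gen A hA hN hF hFZ hS _ hE
  obtain ⟨n₀, hn₀⟩ := h2 1
  refine ⟨n₀, fun n hn j => ?_⟩
  have e0 := hn₀ n hn
  rw [one_mul, h0_prin_inv] at e0
  have key : ∀ j : ℕ, ∀ i, h0 (resD h.var (ζ i) (A ^ n * (H ^ j)⁻¹ * (A ^ c i)⁻¹)) 1 ≤
      h0 (resD h.var (ζ i) (A ^ n * (A ^ c i)⁻¹)) 1 := by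
    intro j i
    have a1 : A ^ n * (A ^ c i)⁻¹ = A ^ n * (H ^ j)⁻¹ * (A ^ c i)⁻¹ * H ^ j := by
      rw [mul_right_comm, inv_mul_cancel_right]
    rw [a1, map_mul (resD h.var (ζ i)) (A ^ n * (H ^ j)⁻¹ * (A ^ c i)⁻¹)]
    exact H32.TK.mul_le _ _ (hFZ (ζ i) _) (bpf_res h (bpf_pow hB j) (ζ i))
  have e1 : (h0 (A ^ n) 1 : ℝ) - h0 (A ^ n * H⁻¹) 1 = ∑ i, (h0 (resD h.var (ζ i) (A ^ n * (A ^ c i)⁻¹)) 1 : ℝ) := by
    have : (h0 (A ^ n) 1 : ℝ) = h0 (A ^ n * H⁻¹) 1 + ∑ i, (h0 (resD h.var (ζ i) (A ^ n * (A ^ c i)⁻¹)) 1 : ℝ) := by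
      exact_mod_cast e0
    linarith
  rw [e1]
  induction j with
  | zero => simp
  | succ j ih =>
    have a1 := h1 (A ^ n * (H ^ j)⁻¹)
    rw [h0_prin_inv] at a1
    have a2 : A ^ n * (H ^ j)⁻¹ * H⁻¹ = A ^ n * (H ^ (j + 1))⁻¹ := by
      rw [pow_succ, mul_inv, mul_assoc]
    rw [a2] at a1
    have a3 : h0 (A ^ n * (H ^ j)⁻¹) 1 ≤ h0 (A ^ n * (H ^ (j + 1))⁻¹) 1 +
        ∑ i, h0 (resD h.var (ζ i) (A ^ n * (A ^ c i)⁻¹)) 1 :=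
      a1.trans (Nat.add_le_add_left (Finset.sum_le_sum fun i _ => key j i) _)
    have a4 : (h0 (A ^ n * (H ^ j)⁻¹) 1 : ℝ) ≤ h0 (A ^ n * (H ^ (j + 1))⁻¹) 1 +
        ∑ i, (h0 (resD h.var (ζ i) (A ^ n * (A ^ c i)⁻¹)) 1 : ℝ) := by exact_mod_cast a3
    push_cast
    linarith

end Pool.Agent.H20.TQ
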