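import Pool.Agent.H20.TQ.Srf
import Pool.Agent.H20.TQ.Cnt

/-!
# [H20 TQ Big] THEOREM Q (MP_e49dc9_ag), chapter P3: `p³ > 0` gives sections slightly beyond `p`
-/

set_option autoImplicit false

namespace Pool.Agent.H20.TQ

open Pool.Agent.H54.RV Pool.Agent.H83.TU Pool.Agent.H83.TK Pool.Agent.H39.TK Pool.Agent.H20.TK
open Pool.Agent.H24.VP (RR chS)

variable {k K : Type} [Field k] [Field K] [Algebra k K] {X : Mod k K} {A D : Cart X} {t : ℝ} {H : Fin 2 → ℤ}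
  {α β : (Fin 2 → ℤ) →+ ℝ} {T : Cart X → Cart X → Cart X → ℝ} {l : Cart X → ℝ} {c : ℝ}

/-- an ample class near `p` -/
theorem near (hp : Pln A D t H α β) (hr : RR T l c) (h3 : 0 < T3 T A D t) :
    ∃ m, 0 < α m ∧ 1 ≤ β m ∧ 3 * α m * T (bas ![A, D] m) (bas ![A, D] m) (bas ![A, D] H) <
      T (bas ![A, D] m) (bas ![A, D] m) (bas ![A, D] m) := by
  obtain ⟨a, ha⟩ : ∃ a, a = |T (bas ![A, D] H) (bas ![A, D] H) (bas ![A, D] H)| := ⟨_, rfl⟩
  obtain ⟨b, hb⟩ : ∃ b, b = |T1 T A D t (bas ![A, D] H) (bas ![A, D] H)| := ⟨_, rfl⟩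
  have ha0 : 0 ≤ a := by rw [ha]; exact abs_nonneg _
  have hb0 : 0 ≤ b := by rw [hb]; exact abs_nonneg _
  have ha1 := le_abs_self (T (bas ![A, D] H) (bas ![A, D] H) (bas ![A, D] H))
  have hb1 := le_abs_self (T1 T A D t (bas ![A, D] H) (bas ![A, D] H))
  rw [← ha] at ha1
  rw [← hb] at hb1
  obtain ⟨m, hm1, hm2, hm3⟩ := hp.inn 1 one_pos ((2 * a + 3 * b + 1) / T3 T A D t + 1)
  have h0 : 0 < (2 * a + 3 * b + 1) / T3 T A D t := div_pos (by positivity) h3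
  have hβ : 1 ≤ β m := by linarith
  have h5 : (2 * a + 3 * b + 1) / T3 T A D t ≤ β m := by linarith
  rw [div_le_iff₀ h3] at h5
  refine ⟨m, hm1, hβ, ?_⟩
  rw [cub hp hr, quad hp hr]
  have hβ0 : 0 < β m := by linarith
  have e1 : α m ^ 3 * T (bas ![A, D] H) (bas ![A, D] H) (bas ![A, D] H) ≤ a := by
    refine (mul_le_mul_of_nonneg_left ha1 (by positivity)).trans ?_
    exact mul_le_of_le_one_left ha0 (pow_le_one₀ hm1.le hm2.le)
  have e2 : α m ^ 2 * β m * T1 T A D t (bas ![A, D] H) (bas ![A, D] H) ≤ b * β m := by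
    refine (mul_le_mul_of_nonneg_left hb1 (by positivity)).trans ?_
    rw [mul_assoc, mul_comm b]
    exact mul_le_of_le_one_left (by positivity) (pow_le_one₀ hm1.le hm2.le)
  have e3 : β m ^ 2 * (2 * a + 3 * b + 1) ≤ β m ^ 3 * T3 T A D t := by
    have : β m ^ 3 * T3 T A D t = β m ^ 2 * (β m * T3 T A D t) := by ring
    rw [this]
    exact mul_le_mul_of_nonneg_left h5 (by positivity)
  have e4 : β m * 1 ≤ β m * β m := mul_le_mul_of_nonneg_left hβ hβ0.le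
  have e5 : a * 1 ≤ a * (β m * β m) := mul_le_mul_of_nonneg_left (by linarith) ha0
  have e6 : b * β m ≤ b * (β m * β m) := mul_le_mul_of_nonneg_left (by linarith) hb0
  nlinarith

theorem big [CharZero k] (hp : Pln A D t H α β) (h : Hyp X) (hr : RR T l c) (hB : Bpf (bas ![A, D] H))
    (h3 : 0 < T3 T A D t) : ∃ G, α G < 0 ∧ 0 < β G ∧ 0 < h0 (bas ![A, D] G) 1 := by
  obtain ⟨m, hm1, hm2, hm3⟩ := near hp hr h3
  obtain ⟨W, hW⟩ : ∃ W, W = bas ![A, D] m := ⟨_, rfl⟩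
  obtain ⟨G, hG⟩ : ∃ G, G = bas ![A, D] H := ⟨_, rfl⟩
  have hWA : Ample W := by rw [hW]; exact hp.amp m hm1 (by linarith)
  rw [← hG] at hB
  rw [← hW, ← hG] at hm3
  obtain ⟨n0, h0'⟩ := count h hWA hB
  obtain ⟨n1, h1⟩ := hr.ev 1 W hWA
  obtain ⟨n2, h2⟩ := hr.ev G⁻¹ W hWA
  obtain ⟨V, hV⟩ : ∃ V, V = T W W W := ⟨_, rfl⟩
  obtain ⟨Q, hQ⟩ : ∃ Q, Q = T W W G := ⟨_, rfl⟩
  have hQ0 : 0 ≤ Q := by
    have := eff_nn h hr (bpf_pos h hB) hWA
    rw [hQ, hr.tri.s23, hr.tri.s12]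
    exact this
  rw [← hV, ← hQ] at hm3
  obtain ⟨e, he⟩ : ∃ e, e = |T W G G| / 2 + |T G G G| / 6 + |l G| := ⟨_, rfl⟩
  have he0 : 0 ≤ e := by rw [he]; positivity
  obtain ⟨δ, hδ⟩ : ∃ δ, δ = V / 6 - α m * Q / 2 := ⟨_, rfl⟩
  have hδ0 : 0 < δ := by rw [hδ]; linarith
  obtain ⟨n, hn⟩ := exists_nat_gt (max (max (n0 : ℝ) n1) (max (n2 : ℝ) ((e * α m + Q / 2 + e + |l W| + |c|) / δ + 1)))
  have g0 : n0 ≤ n := by
    have : (n0 : ℝ) < n := lt_of_le_of_lt ((le_max_left _ _).trans (le_max_left _ _)) hn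
    exact_mod_cast this.le
  have g1 : n1 ≤ n := by
    have : (n1 : ℝ) < n := lt_of_le_of_lt ((le_max_right _ _).trans (le_max_left _ _)) hn
    exact_mod_cast this.le
  have g2 : n2 ≤ n := by
    have : (n2 : ℝ) < n := lt_of_le_of_lt ((le_max_left _ _).trans (le_max_right _ _)) hn
    exact_mod_cast this.le
  have g3 : (e * α m + Q / 2 + e + |l W| + |c|) / δ + 1 < n :=
    lt_of_le_of_lt ((le_max_right _ _).trans (le_max_right _ _)) hn
  have g4 : 0 ≤ (e * α m + Q / 2 + e + |l W| + |c|) / δ := by positivity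
  have hn1 : (1 : ℝ) ≤ n := by linarith
  have g5 : e * α m + Q / 2 + e + |l W| + |c| < n * δ := by
    have : (e * α m + Q / 2 + e + |l W| + |c|) / δ < n := by linarith
    rwa [div_lt_iff₀ hδ0] at this
  obtain ⟨j, hj⟩ : ∃ j, j = ⌊(n : ℝ) * α m⌋₊ + 1 := ⟨_, rfl⟩
  have hj1 : (n : ℝ) * α m < j := by
    rw [hj]
    push_cast
    exact Nat.lt_floor_add_one _
  have hj2 : (j : ℝ) ≤ n * α m + 1 := by
    rw [hj]
    push_cast
    have := Nat.floor_le (show 0 ≤ (n : ℝ) * α m by positivity)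
    linarith
  have a0 := h0' n g0 j
  have a1 := h1 n g1
  have a2 := h2 n g2
  have a3 := hr.chi_sub G (W ^ n)
  rw [one_mul] at a1
  rw [mul_comm] at a2
  rw [a1, a2, a3] at a0
  have a4 : chS T l G (W ^ n) ≤ n ^ 2 * (Q / 2) + n * e := by
    unfold chS
    rw [hr.tri.pow, hr.tri.pow2, hr.tri.pow, ← hQ, he]
    have b1 := neg_le_abs (T W G G)
    have b2 := le_abs_self (T G G G)
    have b3 := le_abs_self (l G)
    have b4 : (n : ℝ) * -T W G G ≤ n * |T W G G| := mul_le_mul_of_nonneg_left b1 (by linarith)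
    have b5 : 1 * |T G G G| ≤ n * |T G G G| := mul_le_mul_of_nonneg_right hn1 (abs_nonneg _)
    have b6 : 1 * |l G| ≤ n * |l G| := mul_le_mul_of_nonneg_right hn1 (abs_nonneg _)
    nlinarith
  have a5 : (j : ℝ) * chS T l G (W ^ n) ≤ (n * α m + 1) * (n ^ 2 * (Q / 2) + n * e) := by
    refine (mul_le_mul_of_nonneg_left a4 (Nat.cast_nonneg j)).trans ?_
    exact mul_le_mul_of_nonneg_right hj2 (by positivity)
  have a6 : Pool.Agent.H24.VP.chi T l c (W ^ n) = n ^ 3 * (V / 6) + n * l W + c := by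
    unfold Pool.Agent.H24.VP.chi
    rw [hr.tri.pow, hr.tri.pow2, hr.tri.pow3, hr.l_pow, ← hV]
    ring
  rw [a6] at a0
  have a7 : 0 < (h0 (W ^ n * (G ^ j)⁻¹) 1 : ℝ) := by
    have b1 : (n : ℝ) ^ 2 * (e * α m + Q / 2 + e + |l W| + |c|) < n ^ 2 * (n * δ) :=
      mul_lt_mul_of_pos_left g5 (by positivity)
    have b2 := neg_abs_le (l W)
    have b3 := neg_abs_le c
    have b4 : (n : ℝ) * 1 ≤ n * n := mul_le_mul_of_nonneg_left hn1 (by linarith)
    have b5 : (n : ℝ) * -|l W| ≤ n * l W := mul_le_mul_of_nonneg_left b2 (by linarith)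
    have b6 : (n : ℝ) * |l W| ≤ n ^ 2 * |l W| := mul_le_mul_of_nonneg_right (by nlinarith) (abs_nonneg _)
    have b7 : 1 * |c| ≤ (n : ℝ) ^ 2 * |c| := mul_le_mul_of_nonneg_right (by nlinarith) (abs_nonneg _)
    have b8 : (n : ℝ) * e ≤ n ^ 2 * e := mul_le_mul_of_nonneg_right (by nlinarith) he0
    have b9 : (n : ℝ) ^ 3 * (V / 6) = n ^ 2 * (n * δ) + n ^ 3 * (α m * Q / 2) := by
      rw [hδ]
      ring
    nlinarith
  refine ⟨n • m - j • H, ?_, ?_, ?_⟩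
  · rw [map_sub, map_nsmul, map_nsmul, hp.crd.aH, nsmul_eq_mul, nsmul_eq_mul, mul_one]
    linarith
  · rw [map_sub, map_nsmul, map_nsmul, hp.crd.bH, nsmul_eq_mul, smul_zero, sub_zero]
    exact mul_pos (by linarith) (by linarith)
  · rw [bas_sub, bas_nsmul, bas_nsmul, ← hW, ← hG]
    exact_mod_cast a7

end Pool.Agent.H20.TQ
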