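import Pool.Agent.H20.TQ.Big

/-!
# [H20 TQ Sp] THEOREM Q (MP_e49dc9_ag), chapter P3: the prime divisors

Let `G` be a class beyond `p` with sections.
* `comp`: if `T(p, G, S) < 0` then `T(p, S, S) < 0`.
* `T2_pos`: `T(p, p, S) > 0` for all prime divisors `S`.
* `surf_sf`: the bound for all surfaces.
-/

set_option autoImplicit false

open Filter

namespace Pool.Agent.H20.TQ

open Pool.Agent.H54.RV Pool.Agent.H83.TU Pool.Agent.H83.TK Pool.Agent.H39.TK Pool.Agent.H20.TK
open Pool.Agent.H24.VP (RR chS)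

variable {k K : Type} [Field k] [Field K] [Algebra k K] {X : Mod k K} {A D : Cart X} {t : ℝ} {H : Fin 2 → ℤ}
  {α β : (Fin 2 → ℤ) →+ ℝ} {T : Cart X → Cart X → Cart X → ℝ} {l : Cart X → ℝ} {c : ℝ}

theorem T1_mul (hr : RR T l c) (A D : Cart X) (t : ℝ) (U V S : Cart X) :
    T1 T A D t (U * V) S = T1 T A D t U S + T1 T A D t V S := by
  unfold T1
  rw [hr.tri.add2, hr.tri.add2]
  ring

theorem T1_bas (hp : Pln A D t H α β) (hr : RR T l c) (m : Fin 2 → ℤ) (S : Cart X) :
    T1 T A D t (bas ![A, D] m) S = α m * T1 T A D t (bas ![A, D] H) S + β m * T2 T A D t S := by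
  rw [hp.lin (fun U => T1 T A D t U S) (fun U V => T1_mul hr A D t U V S) m]
  unfold T1 T2
  rw [hr.tri.s12 D A S]
  ring

/-- a divisor with sections which is negative on `S` contains `S` -/
theorem comp [CharZero k] [T0Space X.P] (hp : Pln A D t H α β) (h : Hyp X) (hr : RR T l c) (P : PDiv X)
    {S : Cart X} (hS : SPr X P.η S) {G : Cart X} (hG : 0 < h0 G 1) (hn : T1 T A D t G S < 0) :
    T1 T A D t S S < 0 := by
  by_contra hcon
  push Not at hcon
  obtain ⟨B, hB⟩ := h.amp
  have key : ∀ a : ℕ, 0 < h0 (G * (S ^ a)⁻¹) 1 ∧ T1 T A D t (G * (S ^ a)⁻¹) S < 0 := by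
    intro a
    induction a with
    | zero =>
      rw [pow_zero, inv_one, mul_one]
      exact ⟨hG, hn⟩
    | succ a ih =>
      obtain ⟨ih1, ih2⟩ := ih
      have e1 : G * (S ^ (a + 1))⁻¹ = G * (S ^ a)⁻¹ * S⁻¹ := by
        rw [pow_succ, mul_inv, mul_assoc]
      have e2 : T1 T A D t S⁻¹ S = - T1 T A D t S S := by
        unfold T1
        rw [hr.tri.inv2, hr.tri.inv2]
        ring
      rw [e1]
      constructor
      · have := Pool.Agent.H24.TK.fd h.var h.gen hB (G * (S ^ a)⁻¹)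
        have a4 := ex_dim h.var hS (G * (S ^ a)⁻¹) 1
        by_contra h5
        have h6 : 0 < Module.finrank k (LinearMap.range (resS h.var P.η (G * (S ^ a)⁻¹) 1)) := by
          rw [pow_one] at a4
          omega
        have h7 : 0 < h0 (resD h.var P.η (G * (S ^ a)⁻¹)) 1 := by
          have h8 := Pool.Agent.H24.TK.fd (isVar_sub h.var P.η) ⟨_, gen_sub h.var P.η⟩ (res_ample h.var P.η _ hB)
            (resD h.var P.η (G * (S ^ a)⁻¹))
          unfold h0
          exact h6.trans_le (Submodule.finrank_le _)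
        have h8 := T1_nn hp h hr hS h7
        linarith
      · rw [T1_mul hr, e2]
        linarith
  have hS0 := Pool.Agent.H24.VP.pos_prm h hr hB hB P hS
  obtain ⟨a, ha⟩ := exists_nat_gt (T G B B / T B B S)
  rw [div_lt_iff₀ hS0] at ha
  have h1 := eff_nn h hr (key a).1 hB
  rw [hr.tri.add, hr.tri.inv, hr.tri.pow, hr.tri.s12 S B B, hr.tri.s23 B S B] at h1
  linarith

/-- the polynomial of a surface in the plane -/
theorem chS_bas (hp : Pln A D t H α β) (hr : RR T l c) (m : Fin 2 → ℤ) (S : Cart X) :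
    chS T l S (bas ![A, D] m) = (α m ^ 2 * T (bas ![A, D] H) (bas ![A, D] H) S +
      2 * α m * β m * T1 T A D t (bas ![A, D] H) S + β m ^ 2 * T2 T A D t S) / 2 -
      (α m * T (bas ![A, D] H) S S + β m * T1 T A D t S S) / 2 + T S S S / 6 + l S := by
  unfold chS
  rw [quad hp hr, lin1 hp hr m S S]

theorem T2_pos [CharZero k] [IsAlgClosed k] [T0Space X.P] (hp : Pln A D t H α β) (h : Hyp X) (hr : RR T l c)
    (hH : Ample (bas ![A, D] H)) (hB : Bpf (bas ![A, D] H)) {G : Fin 2 → ℤ} (hG1 : α G < 0)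
    (hG3 : 0 < h0 (bas ![A, D] G) 1) (P : PDiv X) {S : Cart X} (hS : SPr X P.η S) : 0 < T2 T A D t S := by
  by_contra hcon
  have h0T : T2 T A D t S = 0 := le_antisymm (not_lt.1 hcon) (T2_nn hp h hr P hS)
  have hHS := T1_pos hp h hr hH P hS
  obtain ⟨r, hr'⟩ : ∃ r, r = T1 T A D t (bas ![A, D] H) S := ⟨_, rfl⟩
  rw [← hr'] at hHS
  have hSS : T1 T A D t S S < 0 := by
    refine comp hp h hr P hS hG3 ?_
    rw [T1_bas hp hr, h0T, mul_zero, add_zero, ← hr']
    exact mul_neg_of_neg_of_pos hG1 hHS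
  obtain ⟨s, hs⟩ : ∃ s, s = - T1 T A D t S S := ⟨_, rfl⟩
  have hs0 : 0 < s := by rw [hs]; linarith
  have htf := gt h hr (trdeg_pdiv h P) hS hH hB
  have hlow := tf_low hp.crd (show H ∈ AmL A D from hH) hp.pt htf
  obtain ⟨e, he, R, hR⟩ := (ev_fl α β _).1 hlow 0
  obtain ⟨q, hq⟩ : ∃ q, q = |T (bas ![A, D] H) (bas ![A, D] H) S| + |T (bas ![A, D] H) S S| + |T S S S| + |l S| + 1 :=
    ⟨_, rfl⟩
  have hq0 : 0 < q := by rw [hq]; positivity
  obtain ⟨m, hm1, hm2, hm3⟩ := hp.out (min 1 (min e (s / (4 * r)))) (by positivity) (max (|R| + 1) (max 1 (4 * q / s)))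
  have k1 : -1 < α m := by
    have := min_le_left 1 (min e (s / (4 * r)))
    linarith
  have k2 : -e < α m := by
    have := (min_le_right 1 (min e (s / (4 * r)))).trans (min_le_left _ _)
    linarith
  have k3 : -(s / (4 * r)) < α m := by
    have := (min_le_right 1 (min e (s / (4 * r)))).trans (min_le_right _ _)
    linarith
  have k4 : |R| + 1 ≤ β m := (le_max_left _ _).trans hm3
  have k5 : 1 ≤ β m := ((le_max_left _ _).trans (le_max_right _ _)).trans hm3
  have k6 : 4 * q / s ≤ β m := ((le_max_right _ _).trans (le_max_right _ _)).trans hm3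
  rw [div_le_iff₀ hs0] at k6
  have hreg : m ∈ Reg α β e 0 R := by
    refine ⟨?_, by linarith, ?_⟩
    · rw [abs_of_pos (show 0 < β m by linarith)]
      have : e * 1 ≤ e * β m := mul_le_mul_of_nonneg_left k5 he.le
      linarith
    · have := le_abs_self R
      linarith
  have h1 := hR m hreg
  have h2 : 0 < chS T l S (bas ![A, D] m) := by
    rw [chS_bas hp hr, h0T, ← hr']
    have b1 : -(s / 4) * β m ≤ α m * β m * r := by
      have : -(s / (4 * r)) * (β m * r) ≤ α m * (β m * r) :=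
        mul_le_mul_of_nonneg_right k3.le (mul_pos (by linarith) hHS).le
      have e1 : -(s / (4 * r)) * (β m * r) = -(s / 4) * β m := by
        field_simp
      rw [e1] at this
      linarith
    have b2 : -|T (bas ![A, D] H) (bas ![A, D] H) S| ≤ α m ^ 2 * T (bas ![A, D] H) (bas ![A, D] H) S := by
      rw [neg_le]
      refine (neg_le_abs _).trans ?_
      rw [abs_mul, abs_of_nonneg (sq_nonneg (α m))]
      refine mul_le_of_le_one_left (abs_nonneg _) ?_
      nlinarith
    have b3 : α m * T (bas ![A, D] H) S S ≤ |T (bas ![A, D] H) S S| := by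
      refine (le_abs_self _).trans ?_
      rw [abs_mul]
      refine mul_le_of_le_one_left (abs_nonneg _) ?_
      rw [abs_of_neg hm2]
      linarith
    have b4 := neg_abs_le (T S S S)
    have b5 := neg_abs_le (l S)
    have b6 : β m * T1 T A D t S S = -(β m * s) := by rw [hs]; ring
    rw [b6]
    have b7 := abs_nonneg (T (bas ![A, D] H) (bas ![A, D] H) S)
    have b8 := abs_nonneg (T (bas ![A, D] H) S S)
    have b9 := abs_nonneg (T S S S)
    have b10 := abs_nonneg (l S)
    nlinarith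
  have h3 : 0 < h0 (resD h.var P.η (bas ![A, D] m)) 1 := by
    have : 0 < (h0 (resD h.var P.η (bas ![A, D] m)) 1 : ℝ) := lt_of_lt_of_le h2 h1
    exact_mod_cast this
  have h4 := T1_nn hp h hr hS h3
  rw [T1_bas hp hr, h0T, mul_zero, add_zero, ← hr'] at h4
  have h5 := mul_neg_of_neg_of_pos hm2 hHS
  linarith

/-- classes beyond `p` where the polynomial of the surface is positive -/
theorem exists_beyond (hp : Pln A D t H α β) (hr : RR T l c) {S : Cart X} (h2 : 0 < T2 T A D t S)
    (F : Set (Fin 2 → ℤ)) (hF : F ∈ FL α β) : ∃ G ∈ F, α G < 0 ∧ 0 < β G ∧ 0 < chS T l S (bas ![A, D] G) := by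
  obtain ⟨e, he, R, hR⟩ := (mem_fl α β F).1 hF 0
  obtain ⟨q, hq⟩ : ∃ q, q = |T (bas ![A, D] H) (bas ![A, D] H) S| + 2 * |T1 T A D t (bas ![A, D] H) S| +
    |T (bas ![A, D] H) S S| + |T1 T A D t S S| + |T S S S| + |l S| + 1 := ⟨_, rfl⟩
  have hq0 : 0 < q := by rw [hq]; positivity
  obtain ⟨m, hm1, hm2, hm3⟩ := hp.out (min 1 e) (by positivity) (max (|R| + 1) (max 1 (2 * q / T2 T A D t S)))
  have k1 : -1 < α m := by
    have := min_le_left 1 e
    linarith
  have k2 : -e < α m := by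
    have := min_le_right 1 e
    linarith
  have k4 : |R| + 1 ≤ β m := (le_max_left _ _).trans hm3
  have k5 : 1 ≤ β m := ((le_max_left _ _).trans (le_max_right _ _)).trans hm3
  have k6 : 2 * q / T2 T A D t S ≤ β m := ((le_max_right _ _).trans (le_max_right _ _)).trans hm3
  rw [div_le_iff₀ h2] at k6
  have hβ0 : 0 < β m := by linarith
  refine ⟨m, hR ⟨?_, by linarith, ?_⟩, hm2, hβ0, ?_⟩
  · rw [abs_of_pos hβ0]
    have : e * 1 ≤ e * β m := mul_le_mul_of_nonneg_left k5 he.le
    linarith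
  · have := le_abs_self R
    linarith
  · have habs : |α m| ≤ 1 := by
      rw [abs_of_neg hm2]
      linarith
    have b2 : -|T (bas ![A, D] H) (bas ![A, D] H) S| ≤ α m ^ 2 * T (bas ![A, D] H) (bas ![A, D] H) S := by
      rw [neg_le]
      refine (neg_le_abs _).trans ?_
      rw [abs_mul, abs_of_nonneg (sq_nonneg (α m))]
      refine mul_le_of_le_one_left (abs_nonneg _) ?_
      nlinarith
    have b1 : -(β m * |T1 T A D t (bas ![A, D] H) S|) ≤ α m * β m * T1 T A D t (bas ![A, D] H) S := by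
      rw [neg_le]
      refine (neg_le_abs _).trans ?_
      rw [abs_mul, abs_mul, abs_of_pos hβ0, mul_assoc]
      exact mul_le_of_le_one_left (by positivity) habs
    have b3 : α m * T (bas ![A, D] H) S S ≤ |T (bas ![A, D] H) S S| := by
      refine (le_abs_self _).trans ?_
      rw [abs_mul]
      exact mul_le_of_le_one_left (abs_nonneg _) habs
    have b6 : β m * T1 T A D t S S ≤ β m * |T1 T A D t S S| := mul_le_mul_of_nonneg_left (le_abs_self _) hβ0.le
    have b4 := neg_abs_le (T S S S)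
    have b5 := neg_abs_le (l S)
    have b7 : β m * (2 * q) ≤ β m ^ 2 * T2 T A D t S := by
      have : β m ^ 2 * T2 T A D t S = β m * (β m * T2 T A D t S) := by ring
      rw [this]
      exact mul_le_mul_of_nonneg_left k6 hβ0.le
    have c1 : 1 * |T (bas ![A, D] H) (bas ![A, D] H) S| ≤ β m * |T (bas ![A, D] H) (bas ![A, D] H) S| :=
      mul_le_mul_of_nonneg_right k5 (abs_nonneg _)
    have c2 : 1 * |T (bas ![A, D] H) S S| ≤ β m * |T (bas ![A, D] H) S S| :=
      mul_le_mul_of_nonneg_right k5 (abs_nonneg _)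
    have c3 : 1 * |T S S S| ≤ β m * |T S S S| := mul_le_mul_of_nonneg_right k5 (abs_nonneg _)
    have c4 : 1 * |l S| ≤ β m * |l S| := mul_le_mul_of_nonneg_right k5 (abs_nonneg _)
    have c5 : 0 ≤ β m * |T (bas ![A, D] H) (bas ![A, D] H) S| := by positivity
    have c6 : 0 ≤ β m * |T (bas ![A, D] H) S S| := by positivity
    have c7 : 0 ≤ β m * |T1 T A D t S S| := by positivity
    have c8 : 0 ≤ β m * |T1 T A D t (bas ![A, D] H) S| := by positivity
    have c9 : 0 ≤ β m * |T S S S| := by positivity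
    have c10 : 0 ≤ β m * |l S| := by positivity
    have b8 : β m * q = β m * |T (bas ![A, D] H) (bas ![A, D] H) S| + 2 * (β m * |T1 T A D t (bas ![A, D] H) S|) +
        β m * |T (bas ![A, D] H) S S| + β m * |T1 T A D t S S| + β m * |T S S S| + β m * |l S| + β m := by
      rw [hq]
      ring
    rw [chS_bas hp hr]
    linarith

/-- the bound for all surfaces -/
theorem surf_sf [CharZero k] [IsAlgClosed k] [T0Space X.P] (hp : Pln A D t H α β) (h : Hyp X) (hr : RR T l c)
    (hH : Ample (bas ![A, D] H)) (hB : Bpf (bas ![A, D] H)) {G : Fin 2 → ℤ} (hG1 : α G < 0)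
    (hG3 : 0 < h0 (bas ![A, D] G) 1) (ζ : X.P) (htr : Algebra.trdeg k (X.kap ζ) = 2) :
    ∃ Q, SF H α β (fun m => (h0 (resD h.var ζ (bas ![A, D] m)) 1 : ℝ)) Q := by
  obtain ⟨P, h1, h2⟩ := pdiv_of_trdeg h htr
  obtain ⟨S, hS⟩ := pdiv_spr h P
  have hS' := spr_congr h.var h1 h2 hS
  have htf := gt h hr htr hS' hH hB
  have ht := T2_pos hp h hr hH hB hG1 hG3 P hS
  exact ⟨_, tf_upp hp.crd (show H ∈ AmL A D from hH) hp.pt htf fun F hF => exists_beyond hp hr ht F hF⟩

end Pool.Agent.H20.TQ
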