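import Pool.Agent.H20.TQ.Def
import Pool.Agent.H24.VP.Pos

/-!
# [H20 TQ Cod] THEOREM Q (MP_e49dc9_ag), chapter P3: existence of the coordinates

`al t n m = (m 0 - m 1 / t) / n`, `be t m = m 1 / t`, `H = ![n, 0]`.  `exists_pln`: these are coordinates (`Pln`, H20/TQ/Def).
PROOF.  `0 < t`: `ht.namp 1 0` (`A ^ 1 * D ^ 0 = A`).
`crd`: `α H = 1`, `β H = 0`; finiteness: `|m 1| ≤ t R`, `|m 0| ≤ n R + R`: a subset of a finite product of integer intervals.
`lin`: `f (A ^ u * D ^ v) = u f A + v f D` (`f` additive on a group; integral powers), ring.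
`pt`: an additive `δ : (Fin 2 → ℤ) →+ ℤ` is `δ m = m 0 δ(1,0) + m 1 δ(0,1)`; `c := δ(1,0) + t δ(0,1)`.  The identity
`δ m = δ H α m + c β m` is a computation.  `0 < c`: `0 < δ(u, v)` for `0 ≤ v < t u`; if `c < 0` take `v = ⌊t u⌋` (or `v = ⌈t u⌉ - 1`), `u` large:
`δ(u,v) = u c - (t u - v) δ(0,1) ≤ u c + |δ(0,1)|`: contradiction, so `c ≥ 0`; `c = 0` and `δ(0,1) ≠ 0` contradicts `t` irrational
(`t = - δ(1,0) / δ(0,1)`), `δ(0,1) = 0` gives `c = δ(1,0) = δ(A) > 0`.
`amp`: `0 < α m`, `0 ≤ β m` give `0 ≤ m 1 < t * m 0`.  `pos`: `m 1 < t * m 0`.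
`out`, `inn`: Dirichlet (`Real.exists_int_int_abs_mul_sub_le` for `ξ = 1 / t`): `u, v` with `0 < v`, `s := v / t - u`, `0 < |s| < ε'` (`s ≠ 0`: irrational), where
`ε'` is smaller than `ε` and (for `N`) smaller than the minimum of `|s|` on the finite set `|m 1| ≤ t N`, ..; the other sign: let `s` have the wrong sign,
`j := ⌊1 / |s|⌋` (so `0 < 1 - j |s| < |s|`: not `0` by irrationality) and take `(j u ± 1, j v)`: the value has absolute value `1 - j |s|` and the other sign,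
and `j v ≥ v`.  (Or: multiples, to make `v` large: choose `ε'` smaller first.)
-/

set_option autoImplicit false

namespace Pool.Agent.H20.TQ

open Pool.Agent.H54.RV Pool.Agent.H20.TK

variable {k K : Type} [Field k] [Field K] [Algebra k K] {X : Mod k K}

/-- the coefficient of `H` -/
noncomputable def al (t : ℝ) (n : ℕ) : (Fin 2 → ℤ) →+ ℝ where
  toFun m := ((m 0 : ℝ) - m 1 / t) / n
  map_zero' := by simp
  map_add' u v := by
    simp only [Pi.add_apply, Int.cast_add]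
    ring

/-- the coefficient of `p` -/
noncomputable def be (t : ℝ) : (Fin 2 → ℤ) →+ ℝ where
  toFun m := (m 1 : ℝ) / t
  map_zero' := by simp
  map_add' u v := by
    simp only [Pi.add_apply, Int.cast_add]
    ring

theorem al_apply (t : ℝ) (n : ℕ) (m : Fin 2 → ℤ) : al t n m = ((m 0 : ℝ) - m 1 / t) / n := rfl

theorem be_apply (t : ℝ) (m : Fin 2 → ℤ) : be t m = (m 1 : ℝ) / t := rfl

private theorem ne_zero' {t : ℝ} (ht : 0 < t) (hi : Irrational t) {u v : ℤ} (hv : v ≠ 0) : (u : ℝ) - v / t ≠ 0 := by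
  intro h
  have hv' : (v : ℝ) ≠ 0 := by exact_mod_cast hv
  have h1 : (u : ℝ) = v / t := by linarith
  have h2 : (u : ℝ) ≠ 0 := by
    rw [h1]
    exact div_ne_zero hv' ht.ne'
  refine hi ⟨(v : ℚ) / u, ?_⟩
  push_cast
  rw [h1]
  field_simp

/-- the other side -/
private theorem flip_side {t : ℝ} (ht : 0 < t) (hi : Irrational t) {ε N : ℝ} (hε : ε ≤ 1) {u v σ : ℤ}
    (hσ : σ * σ = 1) (hv : 0 < v) (hN : N ≤ (v : ℝ) / t) (h0 : 0 < (σ : ℝ) * ((u : ℝ) - v / t))
    (h1 : (σ : ℝ) * ((u : ℝ) - v / t) < ε) :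
    ∃ u' v' : ℤ, 0 < -((σ : ℝ) * ((u' : ℝ) - v' / t)) ∧ -((σ : ℝ) * ((u' : ℝ) - v' / t)) < ε ∧ N ≤ (v' : ℝ) / t := by
  obtain ⟨r, hr⟩ : ∃ r, r = (σ : ℝ) * ((u : ℝ) - v / t) := ⟨_, rfl⟩
  rw [← hr] at h0 h1
  have hv0 : (0 : ℝ) < v := by exact_mod_cast hv
  obtain ⟨j, hj⟩ : ∃ j, j = ⌊1 / r⌋₊ := ⟨_, rfl⟩
  have j1 : (j : ℝ) ≤ 1 / r := by
    rw [hj]
    exact Nat.floor_le (by positivity)
  have j2 : 1 / r < (j : ℝ) + 1 := by
    rw [hj]
    exact Nat.lt_floor_add_one _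
  have j3 : 1 ≤ j := by
    rw [hj]
    refine Nat.le_floor ?_
    rw [Nat.cast_one, le_div_iff₀ h0]
    linarith
  have j3' : (1 : ℝ) ≤ j := by exact_mod_cast j3
  rw [le_div_iff₀ h0] at j1
  rw [div_lt_iff₀ h0] at j2
  have hσ' : (σ : ℝ) * σ = 1 := by exact_mod_cast hσ
  have e : -((σ : ℝ) * (((j * u - σ : ℤ) : ℝ) - ((j * v : ℤ) : ℝ) / t)) = 1 - j * r := by
    rw [hr]
    push_cast
    linear_combination hσ'
  have hne : (((j * u - σ : ℤ) : ℝ) - ((j * v : ℤ) : ℝ) / t) ≠ 0 :=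
    ne_zero' ht hi (by positivity)
  have hσ0 : (σ : ℝ) ≠ 0 := by
    rintro h
    rw [h, zero_mul] at hσ'
    exact zero_ne_one hσ'
  have hne2 : 1 - j * r ≠ 0 := by
    rw [← e]
    exact neg_ne_zero.2 (mul_ne_zero hσ0 hne)
  refine ⟨j * u - σ, j * v, ?_, ?_, ?_⟩
  · rw [e]
    exact lt_of_le_of_ne (by linarith) hne2.symm
  · rw [e]
    linarith
  · push_cast
    rw [mul_div_assoc]
    have : 0 < (v : ℝ) / t := by positivity
    nlinarith

/-- approximations from both sides -/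
theorem approx {t : ℝ} (ht : 0 < t) (hi : Irrational t) {ε : ℝ} (hε : 0 < ε) (N : ℝ) :
    (∃ u v : ℤ, 0 < (u : ℝ) - v / t ∧ (u : ℝ) - v / t < ε ∧ N ≤ (v : ℝ) / t) ∧
      ∃ u v : ℤ, -ε < (u : ℝ) - v / t ∧ (u : ℝ) - v / t < 0 ∧ N ≤ (v : ℝ) / t := by
  obtain ⟨M, hM⟩ := exists_nat_gt (max (N * t) 1)
  have hM1 : N * t < M := lt_of_le_of_lt (le_max_left _ _) hM
  have hM2 : (1 : ℝ) < M := lt_of_le_of_lt (le_max_right _ _) hM
  obtain ⟨δ, hδ⟩ : ∃ δ, δ = min ε 1 := ⟨_, rfl⟩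
  have hδ0 : 0 < δ := by rw [hδ]; exact lt_min hε one_pos
  have hδ1 : δ ≤ 1 := by rw [hδ]; exact min_le_right _ _
  have hδε : δ ≤ ε := by rw [hδ]; exact min_le_left _ _
  obtain ⟨n, hn⟩ := exists_nat_gt (1 / δ)
  have hn0 : (0 : ℝ) < n := lt_of_le_of_lt (by positivity) hn
  obtain ⟨u, w, hw, -, h1⟩ := Real.exists_int_int_abs_mul_sub_le ((M : ℝ) / t) (n := n) (by exact_mod_cast hn0)
  have h2 : |(w : ℝ) * (M / t) - u| < δ := by
    refine lt_of_le_of_lt h1 ?_
    rw [div_lt_iff₀ (by positivity)]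
    rw [div_lt_iff₀ hδ0] at hn
    nlinarith
  have hv : 0 < w * M := by
    have : (0 : ℤ) < M := by
      have : (0 : ℝ) < M := by linarith
      exact_mod_cast this
    exact mul_pos hw this
  have hw1 : (1 : ℝ) ≤ w := by exact_mod_cast hw
  have hN : N ≤ ((w * M : ℤ) : ℝ) / t := by
    rw [le_div_iff₀ ht]
    push_cast
    nlinarith
  have e : (w : ℝ) * (M / t) - u = -((u : ℝ) - ((w * M : ℤ) : ℝ) / t) := by
    push_cast
    ring
  rw [e, abs_neg] at h2
  have hne := ne_zero' ht hi (u := u) hv.ne'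
  rcases lt_or_gt_of_ne hne with h3 | h3
  · rw [abs_of_neg h3] at h2
    obtain ⟨u', v', a1, a2, a3⟩ := flip_side ht hi (σ := -1) (u := u) hδ1 (by norm_num) hv hN
      (by rw [Int.cast_neg, Int.cast_one]; linarith) (by rw [Int.cast_neg, Int.cast_one]; linarith)
    push_cast at a1 a2
    refine ⟨⟨u', v', by linarith, by linarith, a3⟩, ⟨u, w * M, by linarith, h3, hN⟩⟩
  · rw [abs_of_pos h3] at h2
    obtain ⟨u', v', a1, a2, a3⟩ := flip_side ht hi (σ := 1) (u := u) hδ1 (by norm_num) hv hN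
      (by rw [Int.cast_one]; linarith) (by rw [Int.cast_one]; linarith)
    push_cast at a1 a2
    refine ⟨⟨u, w * M, h3, by linarith, hN⟩, ⟨u', v', by linarith, by linarith, a3⟩⟩

private theorem add_zpow_lin {f : Cart X → ℝ} (hf : ∀ U V, f (U * V) = f U + f V) (A : Cart X) (n : ℤ) :
    f (A ^ n) = n * f A := by
  let g : Cart X →* Multiplicative ℝ :=
    { toFun := fun U => Multiplicative.ofAdd (f U)
      map_one' := by
        have h1 := hf 1 1
        rw [mul_one] at h1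
        have h2 : f 1 = 0 := by linarith
        rw [h2]
        rfl
      map_mul' := fun U V => by
        rw [hf]
        rfl }
  have h1 : Multiplicative.toAdd (g (A ^ n)) = n * Multiplicative.toAdd (g A) := by
    rw [map_zpow, toAdd_zpow, zsmul_eq_mul]
  exact h1

private theorem dec_lat (δ : (Fin 2 → ℤ) →+ ℤ) (m : Fin 2 → ℤ) :
    δ m = m 0 * δ (Pi.single 0 1) + m 1 * δ (Pi.single 1 1) := by
  have h1 : m = m 0 • (Pi.single 0 1 : Fin 2 → ℤ) + m 1 • (Pi.single 1 1 : Fin 2 → ℤ) := by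
    funext i
    fin_cases i <;> simp
  conv_lhs => rw [h1]
  rw [map_add, map_zsmul, map_zsmul, smul_eq_mul, smul_eq_mul]

theorem exists_pln {A D : Cart X} {t : ℝ} (hA : Ample A) (ht : Thr A D t) {n : ℕ} (hn : 1 ≤ n) :
    Pln A D t ![(n : ℤ), 0] (al t n) (be t) := by
  have ht0 : 0 < t := by
    have h1 := ht.namp 1 0 (by rwa [zpow_one, zpow_zero, mul_one])
    simpa using h1
  have hn1 : (1 : ℝ) ≤ n := by exact_mod_cast hn
  have hn0 : (0 : ℝ) < n := by linarith
  have hamp : ∀ m : Fin 2 → ℤ, 0 < al t n m → 0 ≤ be t m → Ample (bas ![A, D] m) := by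
    intro m h1 h2
    rw [al_apply] at h1
    rw [be_apply] at h2
    have h3 : 0 < (m 0 : ℝ) - m 1 / t := by
      rcases (div_pos_iff.1 h1) with ⟨h3, -⟩ | ⟨-, h3⟩
      · exact h3
      · linarith
    refine ht.amp (m 0) (m 1) ?_ ?_
    · have h4 : 0 ≤ (m 1 : ℝ) := by
        have := mul_nonneg h2 ht0.le
        rwa [div_mul_cancel₀ _ ht0.ne'] at this
      exact_mod_cast h4
    · have h4 : (m 1 : ℝ) / t < m 0 := by linarith
      rw [div_lt_iff₀ ht0] at h4
      linarith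
  refine ⟨⟨?_, ?_, ?_⟩, ?_, hamp, ?_, ?_, ?_, ?_⟩
  · rw [al_apply]
    simp [hn0.ne']
  · rw [be_apply]
    simp
  · intro R
    obtain ⟨M, hM⟩ := exists_nat_gt (max (t * |R|) ((n + 1) * |R|))
    refine (Set.finite_Icc (fun _ => -(M : ℤ) : Fin 2 → ℤ) (fun _ => (M : ℤ))).subset ?_
    rintro m ⟨h1, h2⟩
    have h2' : |be t m| ≤ |R| := h2.trans (le_abs_self R)
    have h1' : |al t n m| ≤ |R| := h1.trans (le_abs_self R)
    have e1 : (m 1 : ℝ) = t * be t m := by
      rw [be_apply]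
      field_simp
    have e0 : (m 0 : ℝ) = n * al t n m + be t m := by
      rw [be_apply, al_apply]
      field_simp
      ring
    have b1 : |(m 1 : ℝ)| ≤ M := by
      rw [e1, abs_mul, abs_of_pos ht0]
      exact ((mul_le_mul_of_nonneg_left h2' ht0.le).trans (le_max_left _ _)).trans hM.le
    have b0 : |(m 0 : ℝ)| ≤ M := by
      rw [e0]
      refine (abs_add_le _ _).trans ?_
      rw [abs_mul, abs_of_pos hn0]
      have c1 := mul_le_mul_of_nonneg_left h1' hn0.le
      have c2 : (n + 1) * |R| ≤ M := (le_max_right _ _).trans hM.le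
      linarith
    rw [abs_le] at b0 b1
    constructor
    · intro i
      fin_cases i
      · show -(M : ℤ) ≤ m 0
        exact_mod_cast b0.1
      · show -(M : ℤ) ≤ m 1
        exact_mod_cast b1.1
    · intro i
      fin_cases i
      · show m 0 ≤ (M : ℤ)
        exact_mod_cast b0.2
      · show m 1 ≤ (M : ℤ)
        exact_mod_cast b1.2
  · intro δ hδ
    obtain ⟨d0, hd0⟩ : ∃ d0, d0 = δ (Pi.single 0 1) := ⟨_, rfl⟩
    obtain ⟨d1, hd1⟩ : ∃ d1, d1 = δ (Pi.single 1 1) := ⟨_, rfl⟩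
    have hdec : ∀ m, (δ m : ℝ) = m 0 * d0 + m 1 * d1 := fun m => by
      rw [dec_lat, ← hd0, ← hd1]
      push_cast
      rfl
    have hpos : ∀ u v : ℤ, 0 < (u : ℝ) - v / t → 0 ≤ (v : ℝ) / t → 0 < (u : ℝ) * d0 + v * d1 := by
      intro u v h1 h2
      have h3 : 0 < δ ![u, v] := by
        refine hδ _ (hamp _ ?_ ?_)
        · rw [al_apply]
          exact div_pos h1 hn0
        · rw [be_apply]
          exact h2
      have h4 := hdec ![u, v]
      have h5 : (0 : ℝ) < δ ![u, v] := by exact_mod_cast h3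
      rw [h4] at h5
      exact h5
    have hd0' : (0 : ℝ) < d0 := by
      have := hpos 1 0 (by simp) (by simp)
      simpa using this
    refine ⟨d0 + t * d1, ?_, fun m => ?_⟩
    · rcases lt_trichotomy ((d0 : ℝ) + t * d1) 0 with h1 | h1 | h1
      · exfalso
        obtain ⟨⟨u, v, a1, a2, a3⟩, -⟩ := approx ht0 ht.irr one_pos (d0 / -((d0 : ℝ) + t * d1))
        have a4 : 0 < (d0 : ℝ) / -((d0 : ℝ) + t * d1) := div_pos hd0' (by linarith)
        have a5 := hpos u v a1 (by linarith)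
        rw [div_le_iff₀ (by linarith)] at a3
        have e : (u : ℝ) * d0 + v * d1 = ((u : ℝ) - v / t) * d0 + v / t * ((d0 : ℝ) + t * d1) := by
          field_simp
          ring
        rw [e] at a5
        have a6 : ((u : ℝ) - v / t) * d0 < 1 * d0 := mul_lt_mul_of_pos_right a2 hd0'
        linarith
      · exfalso
        by_cases h2 : d1 = 0
        · rw [h2] at h1
          simp at h1
          rw [h1] at hd0'
          simp at hd0'
        · have h3 : (d1 : ℝ) ≠ 0 := by exact_mod_cast h2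
          refine ht.irr ⟨-(d0 : ℚ) / d1, ?_⟩
          push_cast
          field_simp
          linarith
      · exact h1
    · rw [hdec, hdec, al_apply, be_apply]
      simp only [Matrix.cons_val_zero, Matrix.cons_val_one]
      push_cast
      field_simp
      ring
  · intro m hm
    have h1 := ht.namp (m 0) (m 1) hm
    rw [al_apply]
    refine div_pos ?_ hn0
    have h2 : (m 1 : ℝ) / t < m 0 := by
      rw [div_lt_iff₀ ht0]
      linarith
    linarith
  · intro ε hε N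
    obtain ⟨-, u, v, a1, a2, a3⟩ := approx ht0 ht.irr hε N
    refine ⟨![u, v], ?_, ?_, ?_⟩
    · rw [al_apply]
      show -ε < ((u : ℝ) - v / t) / n
      rw [lt_div_iff₀ hn0]
      nlinarith
    · rw [al_apply]
      exact div_neg_of_neg_of_pos a2 hn0
    · exact a3
  · intro ε hε N
    obtain ⟨⟨u, v, a1, a2, a3⟩, -⟩ := approx ht0 ht.irr hε N
    refine ⟨![u, v], ?_, ?_, ?_⟩
    · rw [al_apply]
      exact div_pos a1 hn0
    · rw [al_apply]
      show ((u : ℝ) - v / t) / n < ε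
      rw [div_lt_iff₀ hn0]
      nlinarith
    · exact a3
  · intro f hf m
    have h1 : ∀ u v : ℤ, f (A ^ u * D ^ v) = u * f A + v * f D := fun u v => by
      rw [hf, add_zpow_lin hf, add_zpow_lin hf]
    show f (A ^ m 0 * D ^ m 1) = al t n m * f (A ^ (n : ℤ) * D ^ (0 : ℤ)) + be t m * (f A + t * f D)
    rw [h1, h1, al_apply, be_apply]
    push_cast
    field_simp
    ring

theorem bas_Hn (A D : Cart X) (n : ℕ) : bas ![A, D] ![(n : ℤ), 0] = A ^ n := by
  unfold bas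
  simp

end Pool.Agent.H20.TQ
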