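import Pool.Agent.H20.TQ.Geo
import Pool.Agent.H32.TK.Nak

/-!
# [H20 TQ Nak] THEOREM Q (MP_e49dc9_ag), chapter P3: the last step (compare H32/TK/Nak)

`nak`: if for every point `z` with residue field `k` all divisors of the plane in a set of the filter (depending on `z`)
have sections which do not vanish at `z`, then a class beyond `p` is ample: contradiction.
-/

set_option autoImplicit false

open Filter

namespace Pool.Agent.H20.TQ

open Pool.Agent.H54.RV Pool.Agent.H83.TU Pool.Agent.H83.TK Pool.Agent.H39.TK Pool.Agent.H20.TK Pool.Agent.H32.TK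

variable {k K : Type} [Field k] [Field K] [Algebra k K] {X : Mod k K} {A D : Cart X} {t : ℝ} {H : Fin 2 → ℤ}
  {α β : (Fin 2 → ℤ) →+ ℝ}

private theorem fin_min {ι : Type} (T : Finset ι) (f : ι → ℝ) (h : ∀ i ∈ T, 0 < f i) :
    ∃ ρ : ℝ, 0 < ρ ∧ ∀ i ∈ T, ρ ≤ f i := by
  classical
  induction T using Finset.induction_on with
  | empty => exact ⟨1, one_pos, fun i hi => absurd hi (Finset.notMem_empty i)⟩
  | insert a T _ ih =>
    obtain ⟨ρ, h0, h1⟩ := ih fun i hi => h i (Finset.mem_insert_of_mem hi)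
    refine ⟨min ρ (f a), lt_min h0 (h a (Finset.mem_insert_self a T)), fun i hi => ?_⟩
    rcases Finset.mem_insert.1 hi with h2 | h2
    · rw [h2]
      exact min_le_right _ _
    · exact (min_le_left _ _).trans (h1 i h2)

theorem nak [IsAlgClosed k] (hp : Pln A D t H α β) (hX : IsVar X) (hH : Ample (bas ![A, D] H))
    (hsec : ∀ z : X.P, Function.Surjective (algebraMap k (X.kap z)) →
      ∀ᶠ m in FL α β, ∃ s : K, Sec (bas ![A, D] m) 1 s ∧ z ∈ nz (bas ![A, D] m) 1 s) : False := by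
  -- one point
  have hpt : ∀ z : X.P, ∃ (m : Fin 2 → ℤ) (n : ℕ) (s : K), 1 ≤ n ∧ Sec (bas ![A, D] m ^ n * (bas ![A, D] H)⁻¹) 1 s ∧
      z ∈ nz (bas ![A, D] m ^ n * (bas ![A, D] H)⁻¹) 1 s ∧ α m < 0 ∧ 1 ≤ β m := by
    intro z
    obtain ⟨w, hzw, hw⟩ := closed_pt hX z
    obtain ⟨e, he, R, hR⟩ := (ev_fl α β _).1 (hsec w hw) 0
    obtain ⟨m, hm1, hm2, hm3⟩ := hp.out (min (1 / 2) (e / 2)) (by positivity) 1
    have k1 : -(1 / 2) < α m := by
      have := min_le_left (1 / 2) (e / 2)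
      linarith
    have k2 : -(e / 2) < α m := by
      have := min_le_right (1 / 2) (e / 2)
      linarith
    obtain ⟨n, hn⟩ := exists_nat_gt (max (2 / e) (2 * (|R| + 1)))
    have n1 : 2 / e < n := lt_of_le_of_lt (le_max_left _ _) hn
    have n2 : 2 * (|R| + 1) < n := lt_of_le_of_lt (le_max_right _ _) hn
    rw [div_lt_iff₀ he] at n1
    have hn0 : (0 : ℝ) < n := lt_of_le_of_lt (by positivity) n2
    have hα : α (n • m - H) = n * α m - 1 := by
      rw [map_sub, map_nsmul, hp.crd.aH, nsmul_eq_mul]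
    have hβ : β (n • m - H) = n * β m := by
      rw [map_sub, map_nsmul, hp.crd.bH, nsmul_eq_mul, sub_zero]
    have hnβ : (n : ℝ) * 1 ≤ n * β m := mul_le_mul_of_nonneg_left hm3 hn0.le
    obtain ⟨s, hs1, hs2⟩ := hR (n • m - H) ⟨by
      rw [hα, hβ, abs_of_pos (by linarith)]
      have a1 : (n : ℝ) * -(e / 2) ≤ n * α m := mul_le_mul_of_nonneg_left k2.le hn0.le
      have a2 : e * (n * 1) ≤ e * (n * β m) := mul_le_mul_of_nonneg_left hnβ he.le
      linarith, by
      rw [hβ]
      linarith, by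
      rw [hα, hβ]
      have a1 : (n : ℝ) * -(1 / 2) ≤ n * α m := mul_le_mul_of_nonneg_left k1.le hn0.le
      have := le_abs_self R
      linarith⟩
    rw [bas_sub, bas_nsmul] at hs1 hs2
    refine ⟨m, n, s, ?_, hs1, hzw.mem_open (nz_open hX _ 1 s hs1) hs2, hm2, hm3⟩
    have h7 : 0 < n := by exact_mod_cast hn0
    exact h7
  choose g n s hn hs hz hα hβ using hpt
  have hcomp := hX.comp
  obtain ⟨S, -, hS⟩ := isCompact_univ.elim_nhds_subcover
    (fun z => nz (bas ![A, D] (g z) ^ n z * (bas ![A, D] H)⁻¹) 1 (s z))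
    (fun z _ => (nz_open hX _ 1 _ (hs z)).mem_nhds (hz z))
  have hβ0 : ∀ z, 0 < β (g z) := fun z => by
    have := hβ z
    linarith
  obtain ⟨ρ, hρ0, hρ⟩ := fin_min S (fun z => -α (g z) / β (g z)) fun z _ =>
    div_pos (by have := hα z; linarith) (hβ0 z)
  obtain ⟨m', hm1, hm2, hm3⟩ := hp.out ρ hρ0 1
  have hβ' : 0 < β m' := by linarith
  have hαβ' : -α m' < ρ * β m' := by
    have : ρ * 1 ≤ ρ * β m' := mul_le_mul_of_nonneg_left hm3 hρ0.le
    linarith
  have hamp' : Ample (bas ![A, D] m') := by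
    refine ample_of_sec hX hH fun z => ?_
    obtain ⟨w, hwT, hzw⟩ := Set.mem_iUnion₂.1 (hS (Set.mem_univ z))
    have hαw : 0 < -α (g w) := by
      have := hα w
      linarith
    have hα' : 0 < -α m' := by linarith
    have hgap : β (g w) / β m' < -α (g w) / -α m' := by
      rw [div_lt_div_iff₀ hβ' hα']
      have h1 := hρ w hwT
      rw [le_div_iff₀ (hβ0 w)] at h1
      have h2 : β (g w) * -α m' < β (g w) * (ρ * β m') := mul_lt_mul_of_pos_left hαβ' (hβ0 w)
      have h3 : ρ * β (g w) * β m' ≤ -α (g w) * β m' := mul_le_mul_of_nonneg_right h1 hβ'.le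
      linarith
    obtain ⟨N, hN⟩ := exists_nat_gt (1 / (-α (g w) / -α m' - β (g w) / β m'))
    have hN0 : (0 : ℝ) < N := lt_of_le_of_lt (by
      have : 0 < -α (g w) / -α m' - β (g w) / β m' := by linarith
      positivity) hN
    rw [div_lt_iff₀ (by linarith)] at hN
    obtain ⟨j, hj⟩ : ∃ j, j = ⌈(N : ℝ) * (β (g w) / β m')⌉₊ := ⟨_, rfl⟩
    have hj1 : (N : ℝ) * (β (g w) / β m') ≤ j := by rw [hj]; exact Nat.le_ceil _
    have hj2 : (j : ℝ) < N * (β (g w) / β m') + 1 := by
      rw [hj]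
      exact Nat.ceil_lt_add_one (by have := hβ0 w; positivity)
    have hj0 : 1 ≤ j := by
      have h1 : (0 : ℝ) < N * (β (g w) / β m') := mul_pos hN0 (div_pos (hβ0 w) hβ')
      have h2 : (0 : ℝ) < j := lt_of_lt_of_le h1 hj1
      exact_mod_cast h2
    have hclass : Ample (bas ![A, D] m' ^ j * (bas ![A, D] (g w) ^ N)⁻¹) := by
      rw [← bas_nsmul, ← bas_nsmul, ← bas_sub]
      refine hp.amp _ ?_ ?_
      · rw [map_sub, map_nsmul, map_nsmul, nsmul_eq_mul, nsmul_eq_mul]
        have h2 : (j : ℝ) < N * (-α (g w) / -α m') := by linarith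
        rw [← mul_div_assoc, lt_div_iff₀ hα'] at h2
        linarith
      · rw [map_sub, map_nsmul, map_nsmul, nsmul_eq_mul, nsmul_eq_mul]
        rw [← mul_div_assoc, div_le_iff₀ hβ'] at hj1
        linarith
    exact sec_between hX hH hclass (hn w) hj0
      (G := bas ![A, D] (g w)) (G' := bas ![A, D] m') (N := N) (by rw [mul_comm, inv_mul_cancel_right]) (hs w) hzw
  have := hp.pos m' hamp'
  linarith

end Pool.Agent.H20.TQ
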