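import Pool.Agent.H20.TQ.Van
import Pool.Agent.H20.TQ.Sp
import Pool.Agent.H20.TQ.Nak
import Pool.Agent.H20.TQ.Cod

/-!
# [H20 TQ Asm] THEOREM Q (MP_e49dc9_ag), chapter P3: an irrational threshold with `p³ > 0` is impossible

`pln_le`: coordinates with respect to `H` and `p` exist only if `T(p, p, p) ≤ 0`.
`p3_le`: if `A` is ample and `t` is the threshold of `A` in the direction `D`, irrational, then `T(p, p, p) ≤ 0` for `p = A + t D`.
-/

set_option autoImplicit false

open Filter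

namespace Pool.Agent.H20.TQ

open Pool.Agent.H54.RV Pool.Agent.H83.TU Pool.Agent.H83.TK Pool.Agent.H39.TK Pool.Agent.H20.TK
open Pool.Agent.H24.VP (RR chS)

variable {k K : Type} [Field k] [Field K] [Algebra k K] {X : Mod k K} {A D : Cart X} {t : ℝ} {H : Fin 2 → ℤ}
  {α β : (Fin 2 → ℤ) →+ ℝ} {T : Cart X → Cart X → Cart X → ℝ} {l : Cart X → ℝ} {c : ℝ}

theorem pln_le [CharZero k] [IsAlgClosed k] [T0Space X.P] (hp : Pln A D t H α β) (h : Hyp X) (hr : RR T l c)
    (hH : Ample (bas ![A, D] H)) (hB : Bpf (bas ![A, D] H)) : T3 T A D t ≤ 0 := by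
  by_contra hcon
  push Not at hcon
  obtain ⟨G, hG1, hG2, hG3⟩ := big hp h hr hB hcon
  have hsurf := surf_sf hp h hr hH hB hG1 hG3
  have hHpos : 0 < h0 (bas ![A, D] H) 1 := bpf_pos h hB
  have hlow : ∀ᶠ m in FL α β, Pool.Agent.H24.VP.chi T l c (bas ![A, D] m) ≤ (h0 (bas ![A, D] m) 1 : ℝ) := by
    obtain ⟨g, Q, hg, hs⟩ := gy h hp.crd hH hp.pt hsurf H hHpos
    exact low hp.crd (ev_chi hr A D hH) (pl_chi hr A D H) hg hs
  have hF : FinX X := fun W => Pool.Agent.H24.TK.fd h.var h.gen hH W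
  refine nak hp h.var hH fun z hz => ?_
  obtain ⟨g, Q, hg, hs⟩ := gx h hp.crd hH hp.pt hsurf G hG3 z
  have hev : Ev H (fun m => (hv z (bas ![A, D] m) : ℝ))
      (fun m => Pool.Agent.H24.VP.chi T l c (bas ![A, D] m) + -1) := by
    intro m
    obtain ⟨n1, h1⟩ := ev_chi hr A D hH m
    obtain ⟨n2, h2⟩ := Pool.Agent.H83.TU.un_pt h.var (bas ![A, D] H) (bas ![A, D] m) hH z
    refine ⟨n1 + n2, fun n hn => ?_⟩
    obtain ⟨s, hs1, hs2⟩ := h2 n (by omega)
    have e1 := h1 n (by omega)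
    rw [mul_comm, ← bas_line] at hs1 hs2
    have e2 := hv_eq h.var z hz (bas ![A, D] (m + n • H)) (hF _) hs1 hs2
    show (hv z (bas ![A, D] (m + n • H)) : ℝ) = Pool.Agent.H24.VP.chi T l c (bas ![A, D] (m + n • H)) + -1
    dsimp only at e1
    rw [← e1, ← e2]
    push_cast
    ring
  have hpl : PL H (fun m => Pool.Agent.H24.VP.chi T l c (bas ![A, D] m) + -1) := by
    intro m
    obtain ⟨P, hP⟩ := pl_chi hr A D H m
    refine ⟨P + Polynomial.C (-1), fun n => ?_⟩
    dsimp only at hP ⊢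
    rw [hP, Polynomial.eval_add, Polynomial.eval_C]
  have hup := upp hp.crd hG1 hG2 hev hpl hg hs
  filter_upwards [hlow, hup] with m h1 h2
  by_contra hcon'
  push Not at hcon'
  have h3 : secL (bas ![A, D] m) 1 ≤ secv z (bas ![A, D] m) := by
    intro f hf
    refine ⟨hf, fun hu => hcon' f hf ?_⟩
    show Un (X.O z) (f * (bas ![A, D] m).eq z ^ 1)
    rw [pow_one]
    exact hu
  have h4 : h0 (bas ![A, D] m) 1 ≤ hv z (bas ![A, D] m) := by
    have : Module.Finite k (secv z (bas ![A, D] m)) := by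
      have h5 : secv z (bas ![A, D] m) ≤ secL (bas ![A, D] m) 1 := fun f hf => hf.1
      have h6 : Module.Finite k (secL (bas ![A, D] m) 1) := hF _
      exact Submodule.finiteDimensional_of_le h5
    exact Submodule.finrank_mono h3
  have h5 : (h0 (bas ![A, D] m) 1 : ℝ) ≤ hv z (bas ![A, D] m) := by exact_mod_cast h4
  linarith

theorem p3_le [CharZero k] [IsAlgClosed k] [T0Space X.P] (h : Hyp X) (hr : RR T l c) (hA : Ample A)
    (ht : Thr A D t) : T3 T A D t ≤ 0 := by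
  obtain ⟨n, hn, hB⟩ := bpf_exists h.var A hA
  have hp := exists_pln hA ht hn
  have hH : Ample (bas ![A, D] ![(n : ℤ), 0]) := by
    rw [bas_Hn]
    exact ample_pow A n hn hA
  refine pln_le hp h hr hH ?_
  rw [bas_Hn]
  exact hB

end Pool.Agent.H20.TQ
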