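import Pool.Agent.H20.TK.Chi
import Pool.Agent.H24.VP.Def

/-!
# THEOREM Q (MP_e49dc9_ag), chapter P3: the case `p³ > 0`, definitions

`A` is ample, `D` any divisor, `t` the threshold: `A ^ u * D ^ v` is ample for `0 ≤ v < t u` and not ample for `v ≥ t u`;
`t` is irrational.  The lattice: `bas ![A, D] m = A ^ m 0 * D ^ m 1`, `m : Fin 2 → ℤ`; `p = A + t D`.

* `T1 T A D t U V = T(p, U, V)`, `T2 T A D t V = T(p, p, V)`, `T3 T A D t = T(p, p, p)`.
* `Thr A D t`: `t` is irrational and it is the threshold.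
* `Pln A D t H α β`: coordinates with respect to `H` (a multiple of `A`) and `p`: `bas ![A, D] m = α m • H + β m • p`.
-/

set_option autoImplicit false

namespace Pool.Agent.H20.TQ

open Pool.Agent.H54.RV Pool.Agent.H20.TK

variable {k K : Type} [Field k] [Field K] [Algebra k K] {X : Mod k K}

/-- `T(p, U, V)` -/
def T1 (T : Cart X → Cart X → Cart X → ℝ) (A D : Cart X) (t : ℝ) (U V : Cart X) : ℝ := T A U V + t * T D U V

/-- `T(p, p, V)` -/
def T2 (T : Cart X → Cart X → Cart X → ℝ) (A D : Cart X) (t : ℝ) (V : Cart X) : ℝ :=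
  T A A V + 2 * t * T A D V + t ^ 2 * T D D V

/-- `T(p, p, p)` -/
def T3 (T : Cart X → Cart X → Cart X → ℝ) (A D : Cart X) (t : ℝ) : ℝ :=
  T A A A + 3 * t * T A A D + 3 * t ^ 2 * T A D D + t ^ 3 * T D D D

/-- `t` is irrational and the threshold of `A` in the direction `D` -/
structure Thr (A D : Cart X) (t : ℝ) : Prop where
  irr : Irrational t
  amp : ∀ u v : ℤ, 0 ≤ v → (v : ℝ) < t * u → Ample (A ^ u * D ^ v)
  namp : ∀ u v : ℤ, Ample (A ^ u * D ^ v) → (v : ℝ) < t * u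

/-- the classes of the plane which are ample -/
def AmL (A D : Cart X) : Set (Fin 2 → ℤ) := {m | Ample (bas ![A, D] m)}

/-- coordinates with respect to `H` and `p` -/
structure Pln (A D : Cart X) (t : ℝ) (H : Fin 2 → ℤ) (α β : (Fin 2 → ℤ) →+ ℝ) : Prop where
  crd : Crd H α β
  pt : Pt H (AmL A D) α β
  amp : ∀ m, 0 < α m → 0 ≤ β m → Ample (bas ![A, D] m)
  pos : ∀ m, Ample (bas ![A, D] m) → 0 < α m
  out : ∀ ε : ℝ, 0 < ε → ∀ N : ℝ, ∃ m, -ε < α m ∧ α m < 0 ∧ N ≤ β m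
  inn : ∀ ε : ℝ, 0 < ε → ∀ N : ℝ, ∃ m, 0 < α m ∧ α m < ε ∧ N ≤ β m
  lin : ∀ f : Cart X → ℝ, (∀ U V, f (U * V) = f U + f V) → ∀ m,
    f (bas ![A, D] m) = α m * f (bas ![A, D] H) + β m * (f A + t * f D)

end Pool.Agent.H20.TQ
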