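import Pool.Agent.H20.TQ.Def
import Pool.Agent.H20.TK.K0
import Pool.Agent.H24.VP.Alg

/-!
# [H20 TQ Geo] THEOREM Q (MP_e49dc9_ag), chapter P3: the functions of the closed subvarieties (compare H20/TK/Geo)

* `nl_curve`, `nl_piece`: for a curve or a point the numbers of sections are `NL`.
* `pl_chi`, `pl_chS`: polynomiality.  `srf_ev`: the Hilbert polynomial of a surface.
* `gt`: the surfaces satisfy `TF`.
-/

set_option autoImplicit false

open Filter

namespace Pool.Agent.H20.TQ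

open Pool.Agent.H54.RV Pool.Agent.H83.TU Pool.Agent.H83.TK Pool.Agent.H39.TK Pool.Agent.H20.TK
open Pool.Agent.H24.VP (RR chS)

variable {k K : Type} [Field k] [Field K] [Algebra k K] {X : Mod k K} {A D : Cart X} {H : Fin 2 → ℤ}
  {T : Cart X → Cart X → Cart X → ℝ} {l : Cart X → ℝ} {c : ℝ}

/-- the numbers of sections on a curve -/
theorem nl_curve [CharZero k] {κ : Type} [Field κ] [Algebra k κ] {C : Mod k κ} (hC : H41.TK.Crv C)
    (φ : Cart X →* Cart C) (hφ : ∀ A : Cart X, Ample A → Ample (φ A)) (A D : Cart X) :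
    NL (AmL A D) (fun m => (h0 (φ (bas ![A, D] m)) 1 : ℝ)) := by
  let δ : (Fin 2 → ℤ) →+ ℤ :=
    { toFun := fun m => H41.TK.dg (φ (bas ![A, D] m))
      map_zero' := by
        rw [bas_zero, map_one, H41.TK.dg_one]
      map_add' := fun m n => by
        rw [bas_add, map_mul, H41.TK.dg_mul hC] }
  have hδ : ∀ m ∈ AmL A D, 0 < δ m := fun m hm =>
    H41.TK.dg_ample hC _ (hφ _ hm)
  refine ⟨{δ}, - 2 * H41.TK.chi C + 1, δ, H41.TK.chi C, fun d hd => ?_, fun m hm => (hδ m hm).le, fun m hm => ?_⟩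
  · rw [Finset.mem_singleton.1 hd]
    exact hδ
  · have h1 : - 2 * H41.TK.chi C < H41.TK.dg (φ (bas ![A, D] m)) := by
      have := hm δ (Finset.mem_singleton_self δ)
      change _ ≤ H41.TK.dg (φ (bas ![A, D] m)) at this
      omega
    have h2 := H41.TK.h0_eq hC _ h1
    have h3 : ((h0 (φ (bas ![A, D] m)) 1 : ℤ) : ℝ) = ((H41.TK.dg (φ (bas ![A, D] m)) + H41.TK.chi C : ℤ) : ℝ) := by
      rw [h2]
    push_cast at h3
    exact h3

/-- the numbers of sections on a closed subvariety of dimension at most one -/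
theorem nl_piece [CharZero k] [IsAlgClosed k] {κ : Type} [Field κ] [Algebra k κ] {C : Mod k κ} (hC : IsVar C)
    (hg : ∃ g, Gen C g) (htr : Algebra.trdeg k κ < 2)
    (φ : Cart X →* Cart C) (hφ : ∀ A : Cart X, Ample A → Ample (φ A)) (hA : ∃ A : Cart X, Ample A) (A D : Cart X) :
    NL (AmL A D) (fun m => (h0 (φ (bas ![A, D] m)) 1 : ℝ)) := by
  obtain ⟨n, hn⟩ := Cardinal.lt_aleph0.1 (htr.trans (by exact_mod_cast Cardinal.natCast_lt_aleph0 (n := 2)))
  have hn2 : n < 2 := by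
    rw [hn] at htr
    exact_mod_cast htr
  obtain ⟨A', hA'⟩ := hA
  rcases Nat.lt_succ_iff_lt_or_eq.1 hn2 with h1 | h1
  · have h2 : n = 0 := by omega
    rw [h2, Nat.cast_zero] at hn
    simp only [h0_pt hn]
    exact nl_const _
  · rw [h1, Nat.cast_one] at hn
    exact nl_curve ⟨hC, hg, ⟨φ A', hφ A' hA'⟩, hn⟩ φ hφ A D

/-- `chi` is a polynomial along the lines -/
theorem pl_chi (hr : RR T l c) (A D : Cart X) (H : Fin 2 → ℤ) :
    PL H (fun m => Pool.Agent.H24.VP.chi T l c (bas ![A, D] m)) := by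
  intro m
  obtain ⟨U, hU⟩ : ∃ U, U = bas ![A, D] m := ⟨_, rfl⟩
  obtain ⟨G, hG⟩ : ∃ G, G = bas ![A, D] H := ⟨_, rfl⟩
  refine ⟨Polynomial.C (T G G G / 6) * Polynomial.X ^ 3 + Polynomial.C (T U G G / 2) * Polynomial.X ^ 2 +
    Polynomial.C (T U U G / 2 + l G) * Polynomial.X + Polynomial.C (Pool.Agent.H24.VP.chi T l c U), fun n => ?_⟩
  have e1 : bas ![A, D] (m + n • H) = U * G ^ n := by
    rw [bas_add, hU, hG]
    congr 1
    unfold bas
    rw [mul_zpow, ← zpow_mul, ← zpow_mul]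
    simp only [Pi.smul_apply, smul_eq_mul]
    rw [mul_comm n, mul_comm n]
  have e2 : l (G ^ n) = n * l G := by
    obtain ⟨f, hf⟩ := hr.lhom
    rw [← hf, ← hf, map_zpow, toAdd_zpow, zsmul_eq_mul]
  dsimp only
  rw [e1]
  simp only [Polynomial.eval_add, Polynomial.eval_C, Polynomial.eval_mul, Polynomial.eval_X, Polynomial.eval_pow]
  unfold Pool.Agent.H24.VP.chi
  rw [hr.ladd, e2]
  simp only [hr.tri.add, hr.tri.add2, hr.tri.add3, hr.tri.zpow, hr.tri.zpow2, hr.tri.zpow3]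
  rw [hr.tri.s12 G U U, hr.tri.s23 U G U, hr.tri.s12 G U G, hr.tri.s23 G G U, hr.tri.s12 G U G]
  ring

/-- the polynomial of a surface along the lines -/
theorem pl_chS (hr : RR T l c) (A D : Cart X) (H : Fin 2 → ℤ) (S : Cart X) :
    PL H (fun m => chS T l S (bas ![A, D] m)) := by
  intro m
  obtain ⟨U, hU⟩ : ∃ U, U = bas ![A, D] m := ⟨_, rfl⟩
  obtain ⟨G, hG⟩ : ∃ G, G = bas ![A, D] H := ⟨_, rfl⟩
  refine ⟨Polynomial.C (T G G S / 2) * Polynomial.X ^ 2 +
    Polynomial.C (T U G S - T G S S / 2) * Polynomial.X + Polynomial.C (chS T l S U), fun n => ?_⟩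
  have e1 : bas ![A, D] (m + n • H) = U * G ^ n := by
    rw [bas_add, hU, hG]
    congr 1
    unfold bas
    rw [mul_zpow, ← zpow_mul, ← zpow_mul]
    simp only [Pi.smul_apply, smul_eq_mul]
    rw [mul_comm n, mul_comm n]
  dsimp only
  rw [e1]
  simp only [Polynomial.eval_add, Polynomial.eval_C, Polynomial.eval_mul, Polynomial.eval_X, Polynomial.eval_pow]
  unfold chS
  simp only [hr.tri.add, hr.tri.add2, hr.tri.zpow, hr.tri.zpow2]
  rw [hr.tri.s12 G U S]
  ring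

/-- the Hilbert polynomial of `X` in the lattice -/
theorem ev_chi (hr : RR T l c) (A D : Cart X) (hH : Ample (bas ![A, D] H)) :
    Ev H (fun m => (h0 (bas ![A, D] m) 1 : ℝ)) (fun m => Pool.Agent.H24.VP.chi T l c (bas ![A, D] m)) := by
  intro m
  obtain ⟨n₀, hn⟩ := hr.ev (bas ![A, D] m) _ hH
  refine ⟨n₀, fun n hn' => ?_⟩
  have h1 := hn n hn'
  rw [← bas_line] at h1
  exact h1

/-- the Hilbert polynomial of a surface -/
theorem srf_ev [CharZero k] (h : Hyp X) (hr : RR T l c) {z : X.P} {S : Cart X}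
    (hS : SPr X z S) (W A : Cart X) (hA : Ample A) : ∃ n₀ : ℕ, ∀ n ≥ n₀,
      (h0 (resD h.var z (W * A ^ n)) 1 : ℝ) = chS T l S (W * A ^ n) := by
  obtain ⟨n1, h1⟩ := Pool.Agent.H24.TK.ser_ample h.var hA z W
  obtain ⟨n2, h2⟩ := hr.ev W A hA
  obtain ⟨n3, h3⟩ := hr.ev (W * S⁻¹) A hA
  refine ⟨max n1 (max n2 n3), fun n hn => ?_⟩
  have a1 := h1 n (le_trans (le_max_left _ _) hn)
  have a2 := h2 n (le_trans ((le_max_left _ _).trans (le_max_right _ _)) hn)
  have a3 := h3 n (le_trans ((le_max_right _ _).trans (le_max_right _ _)) hn)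
  have := Pool.Agent.H24.TK.fd h.var h.gen hA (W * A ^ n)
  have a4 := ex_dim h.var hS (W * A ^ n) 1
  rw [LinearMap.range_eq_top.2 a1, finrank_top, pow_one, mul_right_comm] at a4
  have a5 : (h0 (W * A ^ n) 1 : ℝ) = h0 (W * S⁻¹ * A ^ n) 1 + h0 (resD h.var z (W * A ^ n)) 1 := by
    exact_mod_cast a4
  have a6 := hr.chi_sub S (W * A ^ n)
  rw [mul_right_comm W S⁻¹] at a3 a5
  linarith

/-- the surfaces -/
theorem gt [CharZero k] [IsAlgClosed k] (h : Hyp X) (hr : RR T l c) {ζ : X.P}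
    (htr : Algebra.trdeg k (X.kap ζ) = 2) {S : Cart X} (hS : SPr X ζ S) (hH : Ample (bas ![A, D] H))
    (hB : Bpf (bas ![A, D] H)) :
    TF H (AmL A D) (fun m => (h0 (resD h.var ζ (bas ![A, D] m)) 1 : ℝ)) (fun m => chS T l S (bas ![A, D] m)) where
  ev := by
    intro m
    obtain ⟨n₀, hn⟩ := srf_ev h hr hS (bas ![A, D] m) _ hH
    refine ⟨n₀, fun n hn' => ?_⟩
    have h1 := hn n hn'
    rw [← bas_line] at h1
    exact h1
  pol := pl_chS hr A D H S
  hH := by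
    obtain ⟨s, hs1, hs2⟩ := hB ζ
    obtain ⟨-, -, hFZ, -⟩ := serP k K X h.var h.gen _ hH
    have := hFZ ζ (resD h.var ζ (bas ![A, D] H))
    have h1 : resS h.var ζ (bas ![A, D] H) 1 ⟨s, hs1⟩ ≠ 0 := fun h2 => (resS_zero h.var ζ _ 1 ⟨s, hs1⟩).1 h2 hs2
    have h2 : 0 < h0 (resD h.var ζ (bas ![A, D] H)) 1 :=
      H32.TK.pos_of_sec _ this (resS h.var ζ (bas ![A, D] H) 1 ⟨s, hs1⟩).2 fun h3 => h1 (Subtype.ext h3)
    exact_mod_cast h2
  st := by
    intro G hG
    have hG' : 0 < h0 (resD h.var ζ (bas ![A, D] G)) 1 := by exact_mod_cast hG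
    obtain ⟨r, ζ', c', h1, h2⟩ := step_of (H := H) (isVar_sub h.var ζ) ⟨_, gen_sub h.var ζ⟩ (serP k)
      (resD h.var ζ) (res_ample h.var ζ _ hH) G hG'
    refine ⟨_, ?_, h2⟩
    refine nl_sum _ _ fun i _ => ?_
    refine nl_shift (g := fun m => (h0 (resD (isVar_sub h.var ζ) (ζ' i) (resD h.var ζ (bas ![A, D] m))) 1 : ℝ)) ?_ _
    exact nl_piece (isVar_sub _ _) ⟨_, gen_sub _ _⟩ (by rw [← htr]; exact h1 i)
      ((resD (isVar_sub h.var ζ) (ζ' i)).comp (resD h.var ζ))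
      (fun A hA => res_ample _ _ _ (res_ample _ _ _ hA)) h.amp A D

end Pool.Agent.H20.TQ
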