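import Pool.Agent.H20.TQ.Ram
import Pool.Agent.H24.VP.Exi
import Pool.Agent.H39.TQ.Nn

/-!
# [H20 TQ LowQ] THEOREM Q (MP_e49dc9_ag), chapter (1): the lower bound on both sides of `p`

`low_q`: `LowQ T l c A D s` of H39/TQ/Itf.  `W = A ^ a * D ^ b = b p + e A`, `M' = W - m A`, `H = m A`.
-/

set_option autoImplicit false

namespace Pool.Agent.H20.TQ

open Pool.Agent.H54.RV Pool.Agent.H83.TU Pool.Agent.H83.TK Pool.Agent.H24.TK Pool.Agent.H24.VP Pool.Agent.H39.TQ

variable {k K : Type} [Field k] [Field K] [Algebra k K] {X : Mod k K}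
  {T : Cart X → Cart X → Cart X → ℝ} {l : Cart X → ℝ} {c : ℝ} {A D : Cart X} {s : ℝ}

/-- `T(p,A,A) > 0` -/
theorem tpAA_pos (hi : ∀ A B C, ∃ z : ℤ, T A B C = z) (ht : Ths A D s) (h3 : Tri T)
    (hpos : ∀ B, Ample B → 0 < T B A A) : 0 < tp T A D s A A := by
  have h1 : 0 ≤ tp T A D s A A := tp_nn ht h3 A A fun B hB => (hpos B hB).le
  refine lt_of_le_of_ne h1 fun h2 => ?_
  obtain ⟨z, hz⟩ := hi D A A
  obtain ⟨w, hw⟩ := hi A A A
  have h4 := hpos A ht.hA
  unfold tp at h2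
  rw [hw] at h4
  rw [hz, hw] at h2
  refine ht.irr ⟨-(z : ℚ) / w, ?_⟩
  have h5 : (w : ℝ) ≠ 0 := h4.ne'
  push_cast
  field_simp
  linarith

theorem low_aux (ht : Pool.Agent.H39.TQ.Thr T l c A D s) (hα : 0 < tpp T A D s A)
    (hi : ∀ A B C, ∃ z : ℤ, T A B C = z) {m : ℕ} (hm : 1 ≤ m) {k' L : Type} [Field k'] [Field L]
    [Algebra k' L] {S : Mod k' L} {ψ : Cart X →* Cart S} (hS : Sf (A ^ m) S ψ) : LowQ T l c A D s := by
  have hr := ht.hr
  have h3 := ht.hr.tri
  have hm1 : (1 : ℝ) ≤ m := by exact_mod_cast hm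
  have hm0 : (0 : ℝ) < m := by linarith
  have hH := (crv_num hr hS).1
  have hκ : 0 < T A A A := by
    rw [h3.pow, h3.pow2, h3.pow3] at hH
    have h5 : 0 < (m : ℝ) ^ 3 * T A A A := by
      have : (m : ℝ) ^ 3 * T A A A = m * (m * (m * T A A A)) := by ring
      rw [this]
      exact hH
    exact (pos_iff_pos_of_mul_pos h5).1 (by positivity)
  obtain ⟨α, hαd⟩ : ∃ α, α = tpp T A D s A := ⟨_, rfl⟩
  obtain ⟨β, hβd⟩ : ∃ β, β = tp T A D s A A := ⟨_, rfl⟩
  obtain ⟨κ, hκd⟩ : ∃ κ, κ = T A A A := ⟨_, rfl⟩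
  have hpos : ∀ B, Ample B → 0 < T B A A := by
    intro B hB
    obtain ⟨-, m₂, k₂, K₂, i1, i2, i3, i4, C, φ, hm₂, hC, hφ, hle, hdg, -⟩ := crv_num hr hS
    have h5 := hdg B
    have h6 : 0 < Pool.Agent.H41.TK.dg (φ B) := Pool.Agent.H41.TK.dg_ample hC _ (hφ B hB)
    have h7 : (0 : ℝ) < Pool.Agent.H41.TK.dg (φ B) := by exact_mod_cast h6
    rw [h5, h3.pow2, h3.pow3] at h7
    have h8 : 0 < ((m₂ : ℝ) * m ^ 2) * T B A A := by
      have : ((m₂ : ℝ) * m ^ 2) * T B A A = m₂ * (m * (m * T B A A)) := by ring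
      rw [this]
      exact h7
    have hm₂' : (0 : ℝ) < m₂ := by exact_mod_cast hm₂
    exact (pos_iff_pos_of_mul_pos h8).1 (by positivity)
  have hβ : 0 < β := by
    rw [hβd]
    exact tpAA_pos hi ht.toThs h3 hpos
  rw [← hαd] at hα
  rw [← hκd] at hκ
  obtain ⟨C, hC⟩ := low_unif hr hS hi (c := c)
  obtain ⟨ε, hε⟩ : ∃ ε, ε = 1 / (2 * (m ^ 2 * β + 1)) := ⟨_, rfl⟩
  have hq : 0 < 2 * ((m : ℝ) ^ 2 * β + 1) := by positivity
  have hε0 : 0 < ε := by rw [hε]; positivity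
  have hε1 : ε * (m ^ 2 * β) ≤ 1 / 2 := by
    rw [hε, div_mul_eq_mul_div, one_mul, div_le_div_iff₀ hq two_pos]
    linarith
  have hε2 : ε ≤ 1 := by
    rw [hε, div_le_one hq]
    have : 0 ≤ (m : ℝ) ^ 2 * β := by positivity
    linarith
  obtain ⟨n, hn⟩ := exists_nat_gt (max ((2 * (m + 1) * β + m * β + 2 * |l A|) / α) ((2 * m + 1) * κ / β))
  have hn1 := (le_max_left _ _).trans_lt hn
  have hn2 := (le_max_right _ _).trans_lt hn
  rw [div_lt_iff₀ hα] at hn1
  rw [div_lt_iff₀ hβ] at hn2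
  refine ⟨C, ε, n + 1, hε0, fun a b h1 h2 h4 => ?_⟩
  have hbn : (n : ℝ) + 1 ≤ b := by exact_mod_cast h1
  have hn0 : (0 : ℝ) ≤ n := Nat.cast_nonneg n
  have hb1 : (1 : ℝ) ≤ b := by linarith
  have hb0 : (0 : ℝ) < b := by linarith
  have hbα : 2 * (m + 1) * β + m * β + 2 * |l A| < b * α := by
    have : (n : ℝ) * α ≤ b * α := mul_le_mul_of_nonneg_right (by linarith) hα.le
    linarith
  have hbβ' : (2 * m + 1) * κ < b * β := by
    have : (n : ℝ) * β ≤ b * β := mul_le_mul_of_nonneg_right (by linarith) hβ.le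
    linarith
  obtain ⟨e, he⟩ : ∃ e, e = (a : ℝ) - s * b := ⟨_, rfl⟩
  rw [← he] at h2 h4
  have he1 : -1 < e := by
    by_contra hcon
    push Not at hcon
    have : b * e ≤ b * -1 := mul_le_mul_of_nonneg_left hcon hb0.le
    linarith
  obtain ⟨W, hW⟩ : ∃ W, W = A ^ a * D ^ b := ⟨_, rfl⟩
  have hM'e : W * (A ^ m)⁻¹ = A ^ (a - m) * D ^ b := by
    rw [hW, zpow_sub, zpow_natCast, mul_right_comm]
  have e' : ((a - m : ℤ) : ℝ) - s * b = e - m := by
    rw [he]
    push_cast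
    ring
  have hWAA : ∀ a' : ℤ, T (A ^ a' * D ^ b) A A = b * β + (a' - s * b) * κ := fun a' => by
    rw [w_T h3 s, hβd, hκd]
  have hWWA : ∀ a' : ℤ, T (A ^ a' * D ^ b) (A ^ a' * D ^ b) A =
      b ^ 2 * α + 2 * b * (a' - s * b) * β + (a' - s * b) ^ 2 * κ := fun a' => by
    rw [w_TT h3 s, hαd, hβd, hκd]
  rw [← hW]
  have hbβ : 0 < b * β := by positivity
  have hmκ : 0 < (m : ℝ) * κ := by positivity
  have heκ : -κ < e * κ := by
    have : -1 * κ < e * κ := mul_lt_mul_of_pos_right he1 hκ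
    linarith
  refine hC W (W * (A ^ m)⁻¹) (fun E hE h5 => ?_) ?_ ?_ ?_ ?_
  · -- the classes of curves
    rw [hM'e, h3.pow2, h3.pow3, h3.pow2, h3.pow3, hWAA, e'] at h5
    have h6 : T E A A ≤ b * β := by
      have h7 : T E A A ≤ b * β + (e - m) * κ := by
        have h8 : (m : ℝ) ^ 2 * T E A A ≤ m ^ 2 * (b * β + (e - m) * κ) := by nlinarith
        exact le_of_mul_le_mul_left h8 (by positivity)
      have h9 : (e - m) * κ ≤ 0 := mul_nonpos_of_nonpos_of_nonneg (by linarith) hκ.le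
      linarith
    have h7 : 0 < T A E (A ^ m) := cv_pos hr hS hE ht.hA
    have h8 : 0 ≤ tp T A D s E (A ^ m) := tp_nn ht.toThs h3 E (A ^ m) fun B hB => (cv_pos hr hS hE hB).le
    have h9 : T W E (A ^ m) = b * tp T A D s E (A ^ m) + e * T A E (A ^ m) := by
      rw [hW, w_T h3 s, ← he]
    obtain ⟨z, hz⟩ := hi W E (A ^ m)
    have h10 : -1 < T W E (A ^ m) := by
      rw [h9]
      have h11 : 0 ≤ b * tp T A D s E (A ^ m) := by positivity
      rcases le_or_gt 0 e with h12 | h12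
      · have := mul_nonneg h12 h7.le
        linarith
      · have h13 : T A E (A ^ m) ≤ m * (b * β) := by
          rw [h3.pow3, h3.s12]
          exact mul_le_mul_of_nonneg_left h6 hm0.le
        have h14 : e * (m * (b * β)) ≤ e * T A E (A ^ m) := mul_le_mul_of_nonpos_left h13 h12.le
        have h15 : -ε * (m * β) ≤ b * e * (m * β) := mul_le_mul_of_nonneg_right h2.le (by positivity)
        have h16 : ε * (m * β) ≤ ε * (m ^ 2 * β) := by
          refine mul_le_mul_of_nonneg_left ?_ hε0.le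
          have : (m : ℝ) * β ≤ m * (m * β) := le_mul_of_one_le_left (by positivity) hm1
          nlinarith
        nlinarith
    rw [hz] at h10 ⊢
    have h11 : -1 < z := by exact_mod_cast h10
    have h12 : 0 ≤ z := by omega
    exact_mod_cast h12
  · rw [mul_comm, inv_mul_cancel_right]
  · -- `T(W,H,H) > 0`
    rw [h3.pow2, h3.pow3, hW, hWAA, ← he]
    have : 0 < b * β + e * κ := by linarith
    positivity
  · -- `T(W,W,H) > 0`
    rw [h3.pow3, hW, hWWA, ← he]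
    have h5 : -1 * (b * β) < e * (b * β) := mul_lt_mul_of_pos_right he1 hbβ
    have h6 : b * (2 * (m + 1) * β) ≤ b * (b * α) := by
      refine mul_le_mul_of_nonneg_left ?_ hb0.le
      have := abs_nonneg (l A)
      have h7 : 0 ≤ m * β := by positivity
      linarith
    have h7 : 0 ≤ e ^ 2 * κ := by positivity
    have h8 : 0 ≤ m * (b * β) := by positivity
    have : 0 < b ^ 2 * α + 2 * b * e * β + e ^ 2 * κ := by nlinarith
    positivity
  · -- sections of `M'` on the surface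
    have hM'1 : T (A ^ m) (A ^ m) (A ^ m) < T (W * (A ^ m)⁻¹) (A ^ m) (A ^ m) := by
      rw [hM'e]
      simp only [h3.pow, h3.pow2, h3.pow3]
      rw [hWAA, e', ← hκd]
      have h5 : (m : ℝ) * κ < b * β + (e - m) * κ := by linarith
      have h6 : (m : ℝ) * (m * (m * κ)) < m * (m * (b * β + (e - m) * κ)) :=
        mul_lt_mul_of_pos_left (mul_lt_mul_of_pos_left h5 hm0) hm0
      exact h6
    have h5 := t4 hr hS _ hM'1
    have h6 : 0 < chS T l (A ^ m) (W * (A ^ m)⁻¹) := by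
      rw [hM'e]
      unfold chS
      simp only [h3.pow, h3.pow2, h3.pow3, hr.l_pow]
      rw [hWWA, hWAA, e', ← hκd]
      have b1 : -(m + 1) * (b * β) ≤ (e - m) * (b * β) := mul_le_mul_of_nonneg_right (by linarith) hbβ.le
      have b2 : 0 ≤ (e - m) ^ 2 * κ := by positivity
      have b3 : (e - m) * κ ≤ 0 := mul_nonpos_of_nonpos_of_nonneg (by linarith) hκ.le
      have b4 : b * (2 * (m + 1) * β + m * β + 2 * |l A|) < b * (b * α) := mul_lt_mul_of_pos_left hbα hb0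
      have b5 := neg_abs_le (l A)
      have b6 : 1 * |l A| ≤ b * |l A| := mul_le_mul_of_nonneg_right hb1 (abs_nonneg _)
      have b7 : 0 < (b ^ 2 * α + 2 * b * (e - m) * β + (e - m) ^ 2 * κ) / 2 -
          (m * (b * β + (e - m) * κ)) / 2 + m * (m * κ) / 6 + l A := by
        have c1 : 0 ≤ -(m * ((e - m) * κ)) := by
          have := mul_nonneg hm0.le (neg_nonneg.2 b3)
          linarith
        have c2 : 0 ≤ (m : ℝ) * (m * κ) := by positivity
        nlinarith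
      have b8 := mul_pos hm0 b7
      linarith
    have h7 : (0 : ℝ) < h0 (ψ (W * (A ^ m)⁻¹)) 1 := lt_of_lt_of_le h6 h5
    exact_mod_cast h7

/-- **chapter (1)** -/
theorem low_q [CharZero k] [T0Space X.P] (h : Hyp X) (ht : Pool.Agent.H39.TQ.Thr T l c A D s)
    (hα : 0 < tpp T A D s A) : LowQ T l c A D s := by
  obtain ⟨m, k', L, i1, i2, i3, S, ψ, hm, hS⟩ := exists_sf h ht.hA
  exact low_aux ht hα (t_int ht.hr h.amp) hm hS

end Pool.Agent.H20.TQ
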