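import Pool.Agent.H24.VP.Dec
import Pool.Agent.H24.VP.Hdg
import Pool.Agent.H24.VP.HdA

/-!
# [H20 TQ Ram] THEOREM Q (MP_e49dc9_ag), chapter (1): numerical connectedness outside the nef cone (compare H24/VP/Ram, Low)

`ram'`: as `ram` of `H24/VP/Ram`, but `0 ≤ T(M,E,H)` is needed only for the classes `E` of curves with `T(E,H,H) ≤ T(M',H,H)`.
`low_unif`: the lower bound on the threefold with one constant for all such `M = H M'`.
-/

set_option autoImplicit false

namespace Pool.Agent.H20.TQ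

open Pool.Agent.H54.RV Pool.Agent.H83.TU Pool.Agent.H83.TK Pool.Agent.H24.TK Pool.Agent.H41.TK Pool.Agent.H24.VP

variable {k K : Type} [Field k] [Field K] [Algebra k K] {X : Mod k K}
  {T : Cart X → Cart X → Cart X → ℝ} {l : Cart X → ℝ} {c : ℝ} {H : Cart X} {k' L : Type} [Field k'] [Field L]
  [Algebra k' L] {S : Mod k' L} {ψ : Cart X →* Cart S}

theorem ram_con' (hr : RR T l c) (hS : Sf H S ψ) (hi : ∀ A B C, ∃ z : ℤ, T A B C = z) {M M' : Cart X}
    (hMM : M = H * M') (hMH : 0 < T M H H) (hM2 : 0 < T M M H) {r : ℕ}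
    {E : Fin r → Cart X} (hE : ∀ i, Cls S ψ (E i)) (hME : ∀ j, 0 ≤ T M (E j) H) (hL : LEq (ψ M') (ψ (∏ i, E i)))
    (s : Finset (Fin r)) (hs : s ≠ Finset.univ) : ∃ i ∉ s, 0 < T (H * ∏ j ∈ s, E j) (E i) H := by
  classical
  have ht := hr.tri
  by_contra hcon
  push Not at hcon
  have hnum := le_num hr hS hL
  obtain ⟨Z, hZ⟩ : ∃ Z : Cart X, Z = H * ∏ j ∈ s, E j := ⟨_, rfl⟩
  obtain ⟨R, hR⟩ : ∃ R : Cart X, R = ∏ j ∈ sᶜ, E j := ⟨_, rfl⟩
  rw [← hZ] at hcon
  have hZR : Z * R = H * ∏ j, E j := by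
    rw [hZ, hR, mul_assoc, Finset.prod_mul_prod_compl]
  have h1 : ∀ U, T M U H = T Z U H + T R U H := by
    intro U
    rw [← ht.add, hZR, ht.add, ← hnum, ← ht.add, ← hMM]
  have hMZ : 0 < T M Z H := by
    rw [hZ, ht.add2, ht.prod2]
    have h2 : 0 ≤ ∑ j ∈ s, T M (E j) H := Finset.sum_nonneg fun j _ => hME j
    linarith
  have hMR : 0 ≤ T M R H := by
    rw [hR, ht.prod2]
    exact Finset.sum_nonneg fun j _ => hME j
  have hHR : 0 < T R H H := by
    rw [hR, ht.prod]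
    refine Finset.sum_pos (fun j _ => ?_) ?_
    · have h4 := cv_pos hr hS (hE j) hS.hH
      rwa [ht.s12] at h4
    · rw [Finset.nonempty_iff_ne_empty]
      intro h2
      rw [Finset.compl_eq_empty_iff] at h2
      exact hs h2
  have hMM2 : T M M H = T M Z H + T M R H := by
    rw [h1 M, ht.s12 Z M H, ht.s12 R M H]
  have hZRn : T R Z H ≤ 0 := by
    rw [ht.s12, hR, ht.prod2]
    exact Finset.sum_nonpos fun j hj => hcon j (Finset.mem_compl.1 hj)
  have hZZ := h1 Z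
  have h2 := hdg_L ht hi (crv_num hr hS).1 (hdg hr hS) M Z hM2
  have h3 : T M Z H ≤ T Z Z H := by linarith
  have h4 : T M M H * T M Z H ≤ T M Z H * T M Z H := by
    calc T M M H * T M Z H ≤ T M M H * T Z Z H := mul_le_mul_of_nonneg_left h3 hM2.le
      _ ≤ T M Z H ^ 2 := h2
      _ = T M Z H * T M Z H := sq _
  have h5 : T M M H ≤ T M Z H := le_of_mul_le_mul_right h4 hMZ
  have h6 : T M R H = 0 := by linarith
  have h7 : T M Z H = T M M H := by linarith
  have h8 : T Z Z H ≤ T M M H := by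
    rw [h7, sq] at h2
    exact le_of_mul_le_mul_left h2 hM2
  have h9 : T R Z H = 0 := by linarith
  have h10 := h1 R
  rw [h6, ht.s12 Z R H, h9] at h10
  have h11 := hdg_eq ht hi (crv_num hr hS).1 (hdg hr hS) M R H hM2 h6 (by linarith)
  linarith

theorem ram' (hr : RR T l c) (hS : Sf H S ψ) (hi : ∀ A B C, ∃ z : ℤ, T A B C = z) {M M' : Cart X}
    (hM : ∀ E, Cls S ψ E → T E H H ≤ T M' H H → 0 ≤ T M E H) (hMM : M = H * M') (hMH : 0 < T M H H)
    (hM2 : 0 < T M M H) (hM' : 0 < h0 (ψ M') 1) (i : ℕ) (hi1 : 1 ≤ i) :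
    (h0 (ψ (H ^ i * M)) 1 : ℝ) - chS T l H (H ^ i * M) ≤ h0 (ψ (H ^ (i + 1))) 1 - chS T l H (H ^ (i + 1)) := by
  classical
  have ht := hr.tri
  obtain ⟨r, E, hE, hL⟩ := dec hr hS M' hM'
  have hpos : ∀ j, 0 < T (E j) H H := fun j => by
    have h4 := cv_pos hr hS (hE j) hS.hH
    rwa [ht.s12] at h4
  have hME : ∀ j, 0 ≤ T M (E j) H := fun j => by
    refine hM _ (hE j) ?_
    rw [le_num hr hS hL, ht.prod]
    exact Finset.single_le_sum (f := fun j => T (E j) H H) (fun i _ => (hpos i).le) (Finset.mem_univ j)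
  have step : ∀ (n : ℕ) (s : Finset (Fin r)), sᶜ.card = n →
      (h0 (ψ (H ^ i * (H * ∏ j, E j))) 1 : ℝ) - chS T l H (H ^ i * (H * ∏ j, E j)) ≤
        h0 (ψ (H ^ i * (H * ∏ j ∈ s, E j))) 1 - chS T l H (H ^ i * (H * ∏ j ∈ s, E j)) := by
    intro n
    induction n with
    | zero =>
      intro s hs
      rw [Finset.card_eq_zero, Finset.compl_eq_empty_iff] at hs
      rw [hs]
    | succ n ih =>
      intro s hs
      have hs1 : s ≠ Finset.univ := by
        rintro rfl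
        rw [Finset.compl_univ, Finset.card_empty] at hs
        omega
      obtain ⟨a, ha, h1⟩ := ram_con' hr hS hi hMM hMH hM2 hE hME hL s hs1
      have h2 := ih (insert a s) (by
        rw [Finset.compl_insert, Finset.card_erase_of_mem (Finset.mem_compl.2 ha), hs]
        rfl)
      rw [Finset.prod_insert ha] at h2
      refine h2.trans ?_
      have e : H ^ i * (H * (E a * ∏ j ∈ s, E j)) = H ^ i * (H * ∏ j ∈ s, E j) * E a := by
        rw [mul_comm (E a), ← mul_assoc H, ← mul_assoc (H ^ i)]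
      rw [e]
      have h3 : 0 < T (E a) H H := by
        have h4 := cv_pos hr hS (hE a) hS.hH
        rwa [ht.s12] at h4
      have h5 : T (H ^ i * (H * ∏ j ∈ s, E j) * E a) (E a) H =
          i * T (E a) H H + T (H * ∏ j ∈ s, E j) (E a) H + T (E a) (E a) H := by
        rw [ht.add, ht.add, ht.pow, ht.s12 H (E a) H]
      have h6 : T (E a) H H ≤ i * T (E a) H H := by
        have h7 : (1 : ℝ) ≤ i := by exact_mod_cast hi1
        nlinarith
      have h8 := cv_shp hr hS (hE a) (H ^ i * (H * ∏ j ∈ s, E j) * E a) (by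
        rw [h5]
        linarith)
      rw [mul_inv_cancel_right] at h8
      linarith
  have h1 := step _ ∅ rfl
  rw [Finset.prod_empty, mul_one, ← pow_succ] at h1
  have hLE : LEq (ψ (H ^ i * M)) (ψ (H ^ i * (H * ∏ j, E j))) := by
    rw [hMM, ← mul_assoc, ← mul_assoc, map_mul ψ (H ^ i * H), map_mul ψ (H ^ i * H)]
    exact (LEq.refl _).mul hL
  have h2 := hLE.h0 1
  have h3 := le_num hr hS hLE
  have h4 : chS T l H (H ^ i * M) = chS T l H (H ^ i * (H * ∏ j, E j)) := by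
    unfold chS
    rw [h3 (H ^ i * M), h3 H, ht.s12 _ (H ^ i * M) H, h3]
  rw [h2, h4]
  exact h1


theorem low_unif (hr : RR T l c) (hS : Sf H S ψ) (hi : ∀ A B C, ∃ z : ℤ, T A B C = z) :
    ∃ C : ℝ, ∀ Mn M' : Cart X, (∀ E, Cls S ψ E → T E H H ≤ T M' H H → 0 ≤ T Mn E H) → Mn = H * M' →
      0 < T Mn H H → 0 < T Mn Mn H → 0 < h0 (ψ M') 1 →
        Pool.Agent.H24.VP.chi T l c Mn - C ≤ h0 Mn 1 := by
  classical
  -- the values on the surface
  obtain ⟨i₀, hi₀⟩ := sf_ev hr hS 1 H hS.hH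
  obtain ⟨g, hg⟩ : ∃ g : ℕ → ℝ, g = fun i => (h0 (ψ (H ^ (i + 1))) 1 : ℝ) - chS T l H (H ^ (i + 1)) :=
    ⟨_, rfl⟩
  have hg0 : ∀ i, i₀ ≤ i → g i = 0 := by
    intro i hi
    have h1 := hi₀ (i + 1) (by omega)
    rw [one_mul] at h1
    rw [hg]
    simp only
    rw [h1, sub_self]
  refine ⟨∑ i ∈ Finset.range i₀, |g (i + 1)|, fun Mn M' h1 h2 h3 h4 h5 => ?_⟩
  have hram : ∀ i, 1 ≤ i → (h0 (ψ (H ^ i * Mn)) 1 : ℝ) - chS T l H (H ^ i * Mn) ≤ g i := by
    intro i hi1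
    rw [hg]
    exact ram' hr hS hi h1 h2 h3 h4 h5 i hi1
  -- the descent
  have hstep : ∀ j : ℕ, (h0 (Mn * H ^ j) 1 : ℝ) - Pool.Agent.H24.VP.chi T l c (Mn * H ^ j) ≤
      (h0 Mn 1 : ℝ) - Pool.Agent.H24.VP.chi T l c Mn + ∑ i ∈ Finset.range j, |g (i + 1)| := by
    intro j
    induction j with
    | zero => rw [pow_zero, mul_one, Finset.range_zero, Finset.sum_empty, add_zero]
    | succ j ih =>
      rw [Finset.sum_range_succ]
      have h1 : Mn * H ^ (j + 1) * H⁻¹ = Mn * H ^ j := by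
        rw [pow_succ, ← mul_assoc, mul_inv_cancel_right]
      have h2 := hS.le (Mn * H ^ (j + 1))
      rw [h1] at h2
      have h3 := hr.chi_sub H (Mn * H ^ (j + 1))
      rw [h1] at h3
      have h4 := hram (j + 1) (by omega)
      rw [mul_comm (H ^ (j + 1)) Mn] at h4
      have h5 := le_abs_self (g (j + 1))
      have h6 : (h0 (Mn * H ^ (j + 1)) 1 : ℝ) ≤ h0 (Mn * H ^ j) 1 + h0 (ψ (Mn * H ^ (j + 1))) 1 := by
        exact_mod_cast h2
      linarith
  obtain ⟨j₀, hj₀⟩ := hr.ev Mn H hS.hH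
  obtain ⟨j, hj⟩ : ∃ j, j = max i₀ j₀ := ⟨_, rfl⟩
  have h1 := hj₀ j (by rw [hj]; exact le_max_right _ _)
  have h2 := hstep j
  rw [h1, sub_self] at h2
  have h3 : ∑ i ∈ Finset.range j, |g (i + 1)| = ∑ i ∈ Finset.range i₀, |g (i + 1)| := by
    symm
    refine Finset.sum_subset (Finset.range_subset_range.2 (by rw [hj]; exact le_max_left _ _))
      fun i _ hi => ?_
    rw [Finset.mem_range, not_lt] at hi
    rw [hg0 (i + 1) (by omega), abs_zero]
  rw [h3] at h2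
  linarith

end Pool.Agent.H20.TQ
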