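import Pool.Agent.H20.TQ.Geo
import Pool.Agent.H24.VP.PosA

/-!
# [H20 TQ Srf] THEOREM Q (MP_e49dc9_ag), chapter P3: numbers

* `lin1`, `quad`, `cub`: `T(W, U, V)`, `T(W, W, S)`, `T(W, W, W)` for `W = α H + β p`.
* `eff_nn`, `srf_nn`: positivity against divisors with sections, on `X` and on a prime divisor.
* `T1_pos`: `T(p, G, S) > 0`, `T2_nn`: `T(p, p, S) ≥ 0` for a prime divisor `S` and an ample `G`.
-/

set_option autoImplicit false

namespace Pool.Agent.H20.TQ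

open Pool.Agent.H54.RV Pool.Agent.H83.TU Pool.Agent.H83.TK Pool.Agent.H39.TK Pool.Agent.H20.TK
open Pool.Agent.H24.VP (RR chS)

variable {k K : Type} [Field k] [Field K] [Algebra k K] {X : Mod k K} {A D : Cart X} {t : ℝ} {H : Fin 2 → ℤ}
  {α β : (Fin 2 → ℤ) →+ ℝ} {T : Cart X → Cart X → Cart X → ℝ} {l : Cart X → ℝ} {c : ℝ}

theorem lin1 (hp : Pln A D t H α β) (hr : RR T l c) (m : Fin 2 → ℤ) (U V : Cart X) :
    T (bas ![A, D] m) U V = α m * T (bas ![A, D] H) U V + β m * T1 T A D t U V :=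
  hp.lin (fun W => T W U V) (fun W W' => hr.tri.add W W' U V) m

theorem quad (hp : Pln A D t H α β) (hr : RR T l c) (m : Fin 2 → ℤ) (S : Cart X) :
    T (bas ![A, D] m) (bas ![A, D] m) S = α m ^ 2 * T (bas ![A, D] H) (bas ![A, D] H) S +
      2 * α m * β m * T1 T A D t (bas ![A, D] H) S + β m ^ 2 * T2 T A D t S := by
  have h1 : ∀ U V, T U (bas ![A, D] m) V = α m * T (bas ![A, D] H) U V + β m * T1 T A D t U V := fun U V => by
    rw [hr.tri.s12, lin1 hp hr]
  rw [lin1 hp hr, h1]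
  unfold T1 T2
  rw [h1, h1]
  unfold T1
  rw [hr.tri.s12 (bas ![A, D] H) A S, hr.tri.s12 (bas ![A, D] H) D S, hr.tri.s12 D A S]
  ring

theorem cub (hp : Pln A D t H α β) (hr : RR T l c) (m : Fin 2 → ℤ) :
    T (bas ![A, D] m) (bas ![A, D] m) (bas ![A, D] m) =
      α m ^ 3 * T (bas ![A, D] H) (bas ![A, D] H) (bas ![A, D] H) +
      3 * α m ^ 2 * β m * T1 T A D t (bas ![A, D] H) (bas ![A, D] H) +
      3 * α m * β m ^ 2 * T2 T A D t (bas ![A, D] H) + β m ^ 3 * T3 T A D t := by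
  obtain ⟨G, hG⟩ : ∃ G, G = bas ![A, D] H := ⟨_, rfl⟩
  obtain ⟨W, hW⟩ : ∃ W, W = bas ![A, D] m := ⟨_, rfl⟩
  have h0 : ∀ U V, T W U V = α m * T G U V + β m * T1 T A D t U V := fun U V => by
    rw [hW, hG, lin1 hp hr]
  have h1 : ∀ U V, T U V W = α m * T G U V + β m * T1 T A D t U V := fun U V => by
    rw [hr.tri.s23, hr.tri.s12, h0]
  have hq := quad hp hr m W
  rw [← hW, ← hG] at hq ⊢
  rw [hq, h1]
  unfold T1 T2 T3
  rw [h1, h1, h1, h1, h1]
  unfold T1
  rw [hr.tri.s12 G A G, hr.tri.s12 G D G, hr.tri.s12 G A A, hr.tri.s23 A G A, hr.tri.s12 G A D, hr.tri.s23 A G D,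
    hr.tri.s12 G D D, hr.tri.s23 D G D, hr.tri.s12 D A G, hr.tri.s12 D A A, hr.tri.s23 A D A, hr.tri.s12 D A D]
  ring

/-- a linear function of `n` which is nonnegative for large `n` -/
private theorem lin_nn {a b : ℝ} {n₀ : ℕ} (h : ∀ n : ℕ, n₀ ≤ n → 0 ≤ a + n * b) : 0 ≤ b := by
  by_contra hb
  push Not at hb
  obtain ⟨n, hn⟩ := exists_nat_gt (a / -b)
  rw [div_lt_iff₀ (by linarith)] at hn
  have h1 := h (max n n₀) (le_max_right _ _)
  have h2 : (n : ℝ) ≤ (max n n₀ : ℕ) := by exact_mod_cast le_max_left n n₀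
  have h3 := mul_le_mul_of_nonneg_right h2 (show 0 ≤ -b by linarith)
  linarith

private theorem quad_nn {a b e : ℝ} {n₀ : ℕ} (h : ∀ n : ℕ, n₀ ≤ n → 0 ≤ a + n * b + n ^ 2 * e) : 0 ≤ e := by
  refine lin_nn (a := |a| + |b|) (n₀ := max n₀ 1) fun n hn => ?_
  have h1 := h n ((le_max_left _ _).trans hn)
  have hn1 : (1 : ℝ) ≤ n := by exact_mod_cast (le_max_right _ _).trans hn
  have h2 : a ≤ |a| * n := (le_abs_self a).trans (le_mul_of_one_le_right (abs_nonneg a) hn1)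
  have h3 : n * b ≤ |b| * n := by
    rw [mul_comm]
    exact mul_le_mul_of_nonneg_right (le_abs_self b) (by linarith)
  have h4 : 0 ≤ (|a| + |b| + n * e) * n := by
    have : (|a| + |b| + n * e) * n = |a| * n + |b| * n + n ^ 2 * e := by ring
    rw [this]
    linarith
  exact nonneg_of_mul_nonneg_left h4 (by linarith)

/-- a divisor with sections on `X` -/
theorem eff_nn [CharZero k] (h : Hyp X) (hr : RR T l c) {U B : Cart X} (hU : 0 < h0 U 1) (hB : Ample B) :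
    0 ≤ T U B B := by
  obtain ⟨n1, h1⟩ := hr.ev 1 B hB
  obtain ⟨n2, h2⟩ := hr.ev U B hB
  have hq : 0 ≤ T U B B / 2 := by
    refine quad_nn (a := T U U U / 6 + l U) (b := T U U B / 2) (n₀ := max n1 n2) fun n hn => ?_
    have a1 := h1 n ((le_max_left _ _).trans hn)
    have a2 := h2 n ((le_max_right _ _).trans hn)
    have := Pool.Agent.H24.TK.fd h.var h.gen hB (B ^ n * U)
    have a3 := H32.TK.mul_le U (B ^ n) this hU
    rw [one_mul] at a1
    rw [mul_comm (B ^ n) U] at a3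
    have a4 : (h0 (B ^ n) 1 : ℝ) ≤ h0 (U * B ^ n) 1 := by exact_mod_cast a3
    rw [a1, a2] at a4
    unfold Pool.Agent.H24.VP.chi at a4
    simp only [hr.tri.add, hr.tri.add2, hr.tri.add3, hr.tri.pow, hr.tri.pow2, hr.tri.pow3, hr.ladd] at a4
    rw [hr.tri.s12 B U U, hr.tri.s23 U B U, hr.tri.s12 B U B, hr.tri.s23 B B U, hr.tri.s12 B U B] at a4
    linarith
  linarith

/-- a divisor with sections on a prime divisor -/
theorem srf_nn [CharZero k] (h : Hyp X) (hr : RR T l c) {ζ : X.P} {S U B : Cart X} (hS : SPr X ζ S)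
    (hU : 0 < h0 (resD h.var ζ U) 1) (hB : Ample B) : 0 ≤ T B U S := by
  obtain ⟨n1, h1⟩ := srf_ev h hr hS 1 B hB
  obtain ⟨n2, h2⟩ := srf_ev h hr hS U B hB
  refine lin_nn (a := T U U S / 2 - T U S S / 2) (n₀ := max n1 n2) fun n hn => ?_
  have a1 := h1 n ((le_max_left _ _).trans hn)
  have a2 := h2 n ((le_max_right _ _).trans hn)
  have := Pool.Agent.H24.TK.fd (isVar_sub h.var ζ) ⟨_, gen_sub h.var ζ⟩ (res_ample h.var ζ _ hB)
    (resD h.var ζ (B ^ n) * resD h.var ζ U)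
  have a3 := H32.TK.mul_le (resD h.var ζ U) (resD h.var ζ (B ^ n)) this hU
  rw [one_mul] at a1
  rw [← map_mul, mul_comm (B ^ n) U] at a3
  have a4 : (h0 (resD h.var ζ (B ^ n)) 1 : ℝ) ≤ h0 (resD h.var ζ (U * B ^ n)) 1 := by exact_mod_cast a3
  rw [a1, a2] at a4
  unfold chS at a4
  simp only [hr.tri.add, hr.tri.add2, hr.tri.pow, hr.tri.pow2] at a4
  rw [hr.tri.s12 U B S] at a4
  linarith

/-- `T(p, G, S) > 0` -/
theorem T1_pos [CharZero k] [T0Space X.P] (hp : Pln A D t H α β) (h : Hyp X) (hr : RR T l c) {G : Cart X}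
    (hG : Ample G) (P : PDiv X) {S : Cart X} (hS : SPr X P.η S) : 0 < T1 T A D t G S := by
  have hi := fun m => Pool.Agent.H24.VP.t_int hr h.amp (bas ![A, D] m) G S
  choose z hz using hi
  let δ : (Fin 2 → ℤ) →+ ℤ :=
    { toFun := z
      map_zero' := by
        have h1 := hz 0
        rw [bas_zero, hr.tri.one] at h1
        exact_mod_cast h1.symm
      map_add' := fun m n => by
        have h1 := hz (m + n)
        rw [bas_add, hr.tri.add, hz, hz] at h1
        exact_mod_cast h1.symm }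
  have hδ : ∀ m, (δ m : ℝ) = T (bas ![A, D] m) G S := fun m => (hz m).symm
  obtain ⟨c', hc', hd⟩ := hp.pt δ fun m hm => by
    have h1 := Pool.Agent.H24.VP.pos_prm h hr hm hG P hS
    rw [← hδ] at h1
    exact_mod_cast h1
  obtain ⟨m, -, -, hm⟩ := hp.inn 1 one_pos 1
  have h1 := hd m
  rw [hδ, hδ, lin1 hp hr m, mul_comm (T (bas ![A, D] H) G S)] at h1
  have h2 : β m * (c' - T1 T A D t G S) = 0 := by linarith
  rcases mul_eq_zero.1 h2 with h3 | h3
  · linarith
  · linarith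

/-- `T(p, U, S) ≥ 0` if `U` has sections on `S` -/
theorem T1_nn [CharZero k] (hp : Pln A D t H α β) (h : Hyp X) (hr : RR T l c) {ζ : X.P} {S U : Cart X}
    (hS : SPr X ζ S) (hU : 0 < h0 (resD h.var ζ U) 1) : 0 ≤ T1 T A D t U S := by
  by_contra hcon
  push Not at hcon
  obtain ⟨m, hm1, hm2, hm3⟩ := hp.inn 1 one_pos ((|T (bas ![A, D] H) U S| + 1) / -T1 T A D t U S)
  have h0 : 0 < (|T (bas ![A, D] H) U S| + 1) / -T1 T A D t U S := div_pos (by positivity) (by linarith)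
  have h1 := srf_nn h hr hS hU (hp.amp m hm1 (by linarith))
  rw [lin1 hp hr m] at h1
  rw [div_le_iff₀ (by linarith)] at hm3
  have h2 : α m * T (bas ![A, D] H) U S ≤ |T (bas ![A, D] H) U S| := by
    refine (le_abs_self _).trans ?_
    rw [abs_mul, abs_of_pos hm1]
    exact mul_le_of_le_one_left (abs_nonneg _) hm2.le
  linarith

/-- `T(p, p, S) ≥ 0` -/
theorem T2_nn [CharZero k] [T0Space X.P] (hp : Pln A D t H α β) (h : Hyp X) (hr : RR T l c) (P : PDiv X)
    {S : Cart X} (hS : SPr X P.η S) : 0 ≤ T2 T A D t S := by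
  by_contra hcon
  push Not at hcon
  obtain ⟨a, ha⟩ : ∃ a, a = |T (bas ![A, D] H) (bas ![A, D] H) S| := ⟨_, rfl⟩
  obtain ⟨b, hb⟩ : ∃ b, b = |T1 T A D t (bas ![A, D] H) S| := ⟨_, rfl⟩
  have ha0 : 0 ≤ a := by rw [ha]; exact abs_nonneg _
  have hb0 : 0 ≤ b := by rw [hb]; exact abs_nonneg _
  obtain ⟨m, hm1, hm2, hm3⟩ := hp.inn 1 one_pos ((a + 2 * b + 1) / -T2 T A D t S + 1)
  have h0 : 0 < (a + 2 * b + 1) / -T2 T A D t S := div_pos (by positivity) (by linarith)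
  have hβ : 1 ≤ β m := by linarith
  have h1 := Pool.Agent.H24.VP.pos_prm h hr (hp.amp m hm1 (by linarith)) (hp.amp m hm1 (by linarith)) P hS
  rw [quad hp hr m] at h1
  have h5 : (a + 2 * b + 1) / -T2 T A D t S ≤ β m := by linarith
  rw [div_le_iff₀ (by linarith)] at h5
  have h2 : α m ^ 2 * T (bas ![A, D] H) (bas ![A, D] H) S ≤ a := by
    rw [ha]
    refine (mul_le_mul_of_nonneg_left (le_abs_self _) (sq_nonneg _)).trans ?_
    exact mul_le_of_le_one_left (abs_nonneg _) (pow_le_one₀ hm1.le hm2.le)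
  have h3 : 2 * α m * β m * T1 T A D t (bas ![A, D] H) S ≤ 2 * b * β m := by
    have e1 : 2 * α m * β m * T1 T A D t (bas ![A, D] H) S ≤ 2 * α m * β m * b := by
      rw [hb]
      exact mul_le_mul_of_nonneg_left (le_abs_self _) (by positivity)
    have e2 : 2 * α m * β m * b = α m * (2 * b * β m) := by ring
    rw [e2] at e1
    exact e1.trans (mul_le_of_le_one_left (by positivity) hm2.le)
  have h6 := mul_le_mul_of_nonneg_right h5 (show (0 : ℝ) ≤ β m by linarith)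
  have h7 : a * 1 ≤ a * β m := mul_le_mul_of_nonneg_left hβ ha0
  nlinarith

end Pool.Agent.H20.TQ
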