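import Pool.Agent.H20.TQ.Asm
import Pool.Agent.H39.TQ.Def

/-!
# [H20 TQ Trl] THEOREM Q (MP_e49dc9_ag), chapter P3: translation to the language of H39/TQ/Def

* `p3_nn`: `T(p,p,p) ≥ 0`.
* `big_q`: if the nef threshold `s` of `D` with respect to `A` is irrational then `T(p,p,p) = 0`, `p = D + s A`.
-/

set_option autoImplicit false

namespace Pool.Agent.H20.TQ

open Pool.Agent.H54.RV Pool.Agent.H83.TU Pool.Agent.H83.TK Pool.Agent.H39.TK Pool.Agent.H20.TK
open Pool.Agent.H24.VP (RR chS)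

variable {k K : Type} [Field k] [Field K] [Algebra k K] {X : Mod k K} {A D : Cart X} {t s : ℝ} {H : Fin 2 → ℤ}
  {α β : (Fin 2 → ℤ) →+ ℝ} {T : Cart X → Cart X → Cart X → ℝ} {l : Cart X → ℝ} {c : ℝ}

/-- `T(W, W, W) ≥ 0` for `W` ample -/
theorem vol_nn [CharZero k] (h : Hyp X) (hr : RR T l c) {W : Cart X} (hW : Ample W) : 0 ≤ T W W W := by
  obtain ⟨n, hn, hB⟩ := bpf_exists h.var W hW
  have h1 := eff_nn h hr (bpf_pos h hB) hW
  rw [hr.tri.pow] at h1
  have hn0 : (0 : ℝ) < n := by exact_mod_cast hn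
  exact nonneg_of_mul_nonneg_right h1 hn0

theorem pln_nn [CharZero k] (hp : Pln A D t H α β) (h : Hyp X) (hr : RR T l c) : 0 ≤ T3 T A D t := by
  by_contra hcon
  push Not at hcon
  obtain ⟨a, ha⟩ : ∃ a, a = |T (bas ![A, D] H) (bas ![A, D] H) (bas ![A, D] H)| := ⟨_, rfl⟩
  obtain ⟨b, hb⟩ : ∃ b, b = |T1 T A D t (bas ![A, D] H) (bas ![A, D] H)| := ⟨_, rfl⟩
  obtain ⟨d, hd⟩ : ∃ d, d = |T2 T A D t (bas ![A, D] H)| := ⟨_, rfl⟩
  have ha0 : 0 ≤ a := by rw [ha]; exact abs_nonneg _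
  have hb0 : 0 ≤ b := by rw [hb]; exact abs_nonneg _
  have hd0 : 0 ≤ d := by rw [hd]; exact abs_nonneg _
  have ha1 := le_abs_self (T (bas ![A, D] H) (bas ![A, D] H) (bas ![A, D] H))
  have hb1 := le_abs_self (T1 T A D t (bas ![A, D] H) (bas ![A, D] H))
  have hd1 := le_abs_self (T2 T A D t (bas ![A, D] H))
  rw [← ha] at ha1
  rw [← hb] at hb1
  rw [← hd] at hd1
  obtain ⟨m, hm1, hm2, hm3⟩ := hp.inn 1 one_pos ((a + 3 * b + 3 * d + 1) / -T3 T A D t + 1)
  have h0 : 0 < (a + 3 * b + 3 * d + 1) / -T3 T A D t := div_pos (by positivity) (by linarith)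
  have hβ : 1 ≤ β m := by linarith
  have hβ0 : 0 < β m := by linarith
  have h5 : (a + 3 * b + 3 * d + 1) / -T3 T A D t ≤ β m := by linarith
  rw [div_le_iff₀ (by linarith)] at h5
  have h1 := vol_nn h hr (hp.amp m hm1 hβ0.le)
  rw [cub hp hr] at h1
  have e1 : α m ^ 3 * T (bas ![A, D] H) (bas ![A, D] H) (bas ![A, D] H) ≤ a := by
    refine (mul_le_mul_of_nonneg_left ha1 (by positivity)).trans ?_
    exact mul_le_of_le_one_left ha0 (pow_le_one₀ hm1.le hm2.le)
  have e2 : α m ^ 2 * β m * T1 T A D t (bas ![A, D] H) (bas ![A, D] H) ≤ b * β m := by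
    refine (mul_le_mul_of_nonneg_left hb1 (by positivity)).trans ?_
    rw [mul_assoc, mul_comm b]
    exact mul_le_of_le_one_left (by positivity) (pow_le_one₀ hm1.le hm2.le)
  have e3 : α m * β m ^ 2 * T2 T A D t (bas ![A, D] H) ≤ d * β m ^ 2 := by
    refine (mul_le_mul_of_nonneg_left hd1 (by positivity)).trans ?_
    rw [mul_assoc, mul_comm d]
    exact mul_le_of_le_one_left (by positivity) hm2.le
  have e4 : β m ^ 2 * (a + 3 * b + 3 * d + 1) ≤ β m ^ 2 * (β m * -T3 T A D t) :=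
    mul_le_mul_of_nonneg_left h5 (by positivity)
  have e5 : β m * 1 ≤ β m * β m := mul_le_mul_of_nonneg_left hβ hβ0.le
  have e6 : a * 1 ≤ a * (β m * β m) := mul_le_mul_of_nonneg_left (by linarith) ha0
  have e7 : b * β m ≤ b * (β m * β m) := mul_le_mul_of_nonneg_left (by linarith) hb0
  nlinarith

theorem p3_nn [CharZero k] (h : Hyp X) (hr : RR T l c) (hA : Ample A) (ht : Thr A D t) : 0 ≤ T3 T A D t :=
  pln_nn (exists_pln hA ht le_rfl) h hr

theorem one_not_ample [CharZero k] [T0Space X.P] (h : Hyp X) (hr : RR T l c) : ¬ Ample (1 : Cart X) := by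
  intro h1
  obtain ⟨P⟩ := Pool.Agent.H36.TU.exists_any h
  obtain ⟨S, hS⟩ := pdiv_spr h P
  have h2 := Pool.Agent.H24.VP.pos_prm h hr h1 h1 P hS
  rw [hr.tri.one] at h2
  exact lt_irrefl _ h2

/-- the translation -/
theorem thr_of [CharZero k] [T0Space X.P] (h : Hyp X) (hr : RR T l c) (hs : Pool.Agent.H39.TQ.Ths A D s) {N : ℕ}
    (hN : 0 < s + N) : Thr A (D * (A ^ N)⁻¹) (1 / (s + N)) := by
  have key : ∀ u v : ℤ, A ^ u * (D * (A ^ N)⁻¹) ^ v = A ^ (u - N * v) * D ^ v := by
    intro u v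
    rw [mul_zpow, inv_zpow, ← zpow_natCast, ← zpow_mul, ← zpow_neg, mul_left_comm, ← zpow_add, mul_comm (D ^ v)]
    rfl
  have hpos : ∀ u v : ℤ, 0 ≤ v → ((v : ℝ) < 1 / (s + N) * u) → Ample (A ^ (u - N * v) * D ^ v) := by
    intro u v h1 h2
    have h3 : (v : ℝ) * (s + N) < u := by
      rw [one_div, inv_mul_eq_div, lt_div_iff₀ hN] at h2
      exact h2
    rcases h1.eq_or_lt with h4 | h4
    · rw [← h4] at h3 ⊢
      rw [mul_zero, sub_zero, zpow_zero, mul_one]
      rw [Int.cast_zero, zero_mul] at h3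
      obtain ⟨n, rfl⟩ := Int.eq_ofNat_of_zero_le (show 0 ≤ u by exact_mod_cast h3.le)
      rw [zpow_natCast]
      refine ample_pow A n ?_ hs.hA
      have : 0 < n := by exact_mod_cast h3
      exact this
    · refine hs.amp _ _ h4 ?_
      push_cast
      linarith
  refine ⟨?_, fun u v h1 h2 => ?_, fun u v h1 => ?_⟩
  · rw [one_div]
    exact (hs.irr.add_natCast N).inv
  · rw [key]
    exact hpos u v h1 h2
  · rw [key] at h1
    rcases lt_trichotomy v 0 with h2 | h2 | h2
    · -- `v < 0`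
      by_contra hcon
      push Not at hcon
      have hne : (v : ℝ) ≠ 1 / (s + N) * u := by
        intro h3
        rw [one_div, inv_mul_eq_div, eq_div_iff hN.ne'] at h3
        have hv : (v : ℝ) ≠ 0 := by exact_mod_cast h2.ne
        refine hs.irr ⟨(u : ℚ) / v - N, ?_⟩
        push_cast
        field_simp
        linarith
      have h3 : 1 / (s + N) * u < v := lt_of_le_of_ne hcon hne.symm
      have h4 := hpos (-u) (-v) (by omega) (by push_cast; linarith)
      have h5 := ample_mul h.var _ _ h1 h4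
      have h6 : A ^ (u - N * v) * D ^ v * (A ^ (-u - N * -v) * D ^ (-v)) = 1 := by
        rw [mul_mul_mul_comm, ← zpow_add, ← zpow_add, add_neg_cancel, zpow_zero, mul_one]
        have : u - N * v + (-u - N * -v) = 0 := by ring
        rw [this, zpow_zero]
      rw [h6] at h5
      exact one_not_ample h hr h5
    · rw [h2, mul_zero, sub_zero, zpow_zero, mul_one] at h1
      rw [h2, Int.cast_zero]
      refine mul_pos (by positivity) ?_
      by_contra hcon
      push Not at hcon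
      have h3 : u ≤ 0 := by exact_mod_cast hcon
      obtain ⟨n, hn⟩ := Int.eq_ofNat_of_zero_le (show 0 ≤ -u by omega)
      have h4 : u = -(n : ℤ) := by omega
      rw [h4, zpow_neg, zpow_natCast] at h1
      rcases Nat.eq_zero_or_pos n with h5 | h5
      · rw [h5, pow_zero, inv_one] at h1
        exact one_not_ample h hr h1
      · have h6 := ample_mul h.var _ _ h1 (ample_pow A n h5 hs.hA)
        rw [inv_mul_cancel] at h6
        exact one_not_ample h hr h6
    · by_contra hcon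
      push Not at hcon
      have hne : (v : ℝ) ≠ 1 / (s + N) * u := by
        intro h3
        rw [one_div, inv_mul_eq_div, eq_div_iff hN.ne'] at h3
        have hv : (v : ℝ) ≠ 0 := by exact_mod_cast h2.ne'
        refine hs.irr ⟨(u : ℚ) / v - N, ?_⟩
        push_cast
        field_simp
        linarith
      have h3 : 1 / (s + N) * u < v := lt_of_le_of_ne hcon hne.symm
      rw [one_div, inv_mul_eq_div, div_lt_iff₀ hN] at h3
      refine hs.out _ _ h2 ?_ h1
      push_cast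
      linarith

/-- **chapter P3**: an irrational threshold has `T(p,p,p) = 0` -/
theorem big_q [CharZero k] [IsAlgClosed k] [T0Space X.P] (h : Hyp X) (hr : RR T l c)
    (hs : Pool.Agent.H39.TQ.Ths A D s) : Pool.Agent.H39.TQ.tp3 T A D s = 0 := by
  obtain ⟨N, hN⟩ := exists_nat_gt (-s)
  have hN' : 0 < s + N := by linarith
  have ht := thr_of h hr hs hN'
  have h1 := p3_le h hr hs.hA ht
  have h2 := p3_nn h hr hs.hA ht
  have h3 : T3 T A (D * (A ^ N)⁻¹) (1 / (s + N)) = 0 := le_antisymm h1 h2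
  have h4 : T3 T A (D * (A ^ N)⁻¹) (1 / (s + N)) = (1 / (s + N)) ^ 3 * Pool.Agent.H39.TQ.tp3 T A D s := by
    unfold T3 Pool.Agent.H39.TQ.tp3
    simp only [hr.tri.add, hr.tri.add2, hr.tri.add3, hr.tri.inv, hr.tri.inv2, hr.tri.inv3, hr.tri.pow, hr.tri.pow2,
      hr.tri.pow3]
    rw [hr.tri.s12 D A A, hr.tri.s23 A D A, hr.tri.s12 D A D, hr.tri.s23 D D A, hr.tri.s12 D A D]
    field_simp
    ring
  rw [h4] at h3
  rcases mul_eq_zero.1 h3 with h5 | h5
  · exact absurd h5 (by positivity)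
  · exact h5

end Pool.Agent.H20.TQ
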