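import Pool.Agent.H20.TQ.Geo

/-!
# [H20 TQ Van] THEOREM Q (MP_e49dc9_ag), chapter P3: the steps on `X` (compare H20/TK/Van)

* `piece_sf`: closed subvarieties of dimension `≤ 2` satisfy `SF`.
* `gy`, `gx`: the steps on `X`, for all sections and for the sections which vanish at a point.
-/

set_option autoImplicit false

open Filter

namespace Pool.Agent.H20.TQ

open Pool.Agent.H54.RV Pool.Agent.H83.TU Pool.Agent.H83.TK Pool.Agent.H39.TK Pool.Agent.H20.TK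

variable {k K : Type} [Field k] [Field K] [Algebra k K] {X : Mod k K} {A D : Cart X} {H : Fin 2 → ℤ}
  {α β : (Fin 2 → ℤ) →+ ℝ}

/-- closed subvarieties of dimension at most two -/
theorem piece_sf [CharZero k] [IsAlgClosed k] (h : Hyp X)
    (hc : Crd H α β) (hHA : Ample (bas ![A, D] H)) (hpt : Pt H (AmL A D) α β)
    (hsurf : ∀ ζ : X.P, Algebra.trdeg k (X.kap ζ) = 2 →
      ∃ Q, SF H α β (fun m => (h0 (resD h.var ζ (bas ![A, D] m)) 1 : ℝ)) Q)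
    (ζ : X.P) (htr : Algebra.trdeg k (X.kap ζ) < 3) :
    ∃ Q, SF H α β (fun m => (h0 (resD h.var ζ (bas ![A, D] m)) 1 : ℝ)) Q := by
  by_cases h2 : Algebra.trdeg k (X.kap ζ) = 2
  · exact hsurf ζ h2
  · obtain ⟨n, hn⟩ := Cardinal.lt_aleph0.1 (htr.trans (by exact_mod_cast Cardinal.natCast_lt_aleph0 (n := 3)))
    have hn2 : n < 2 := by
      rw [hn] at htr h2
      have h3 : n < 3 := by exact_mod_cast htr
      have h4 : n ≠ 2 := by
        rintro rfl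
        exact h2 (by norm_num)
      omega
    have htr2 : Algebra.trdeg k (X.kap ζ) < 2 := by
      rw [hn]
      exact_mod_cast hn2
    have h3 := nl_piece (isVar_sub h.var ζ) ⟨_, gen_sub h.var ζ⟩ htr2 (resD h.var ζ)
      (fun A hA => res_ample _ _ _ hA) h.amp A D
    obtain ⟨l, c, -, h4⟩ := nl_sf hc (show H ∈ AmL A D from hHA) hpt h3
    exact ⟨_, h4⟩

/-- the sum of the pieces -/
theorem sum_sf [CharZero k] [IsAlgClosed k] (h : Hyp X)
    (hc : Crd H α β) (hHA : Ample (bas ![A, D] H)) (hpt : Pt H (AmL A D) α β)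
    (hsurf : ∀ ζ : X.P, Algebra.trdeg k (X.kap ζ) = 2 →
      ∃ Q, SF H α β (fun m => (h0 (resD h.var ζ (bas ![A, D] m)) 1 : ℝ)) Q)
    {r : ℕ} (ζ : Fin r → X.P) (c : Fin r → ℕ) (htr : ∀ i, Algebra.trdeg k (X.kap (ζ i)) < 3) :
    ∃ Q, SF H α β (fun m => ∑ i, (h0 (resD h.var (ζ i) (bas ![A, D] (m + -(c i • H)))) 1 : ℝ)) Q := by
  choose Q hQ using fun i => piece_sf h hc hHA hpt hsurf (ζ i) (htr i)
  exact ⟨_, sf_sum Finset.univ _ _ fun i _ => sf_shift (hQ i) (-(c i • H))⟩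

/-- the step on `X` -/
theorem gy [CharZero k] [IsAlgClosed k] (h : Hyp X)
    (hc : Crd H α β) (hHA : Ample (bas ![A, D] H)) (hpt : Pt H (AmL A D) α β)
    (hsurf : ∀ ζ : X.P, Algebra.trdeg k (X.kap ζ) = 2 →
      ∃ Q, SF H α β (fun m => (h0 (resD h.var ζ (bas ![A, D] m)) 1 : ℝ)) Q)
    (G : Fin 2 → ℤ) (hG : 0 < h0 (bas ![A, D] G) 1) :
    ∃ g Q, SF H α β g Q ∧ Stp H G (fun m => (h0 (bas ![A, D] m) 1 : ℝ)) g := by
  obtain ⟨r, ζ, c, h1, h2⟩ := step_of (H := H) h.var h.gen (serP k) (MonoidHom.id (Cart X)) hHA G hG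
  obtain ⟨Q, hQ⟩ := sum_sf h hc hHA hpt hsurf ζ c fun i => by
    rw [← h.tr]
    exact h1 i
  exact ⟨_, Q, hQ, h2⟩

/-- the step on `X` for the sections which vanish at a point -/
theorem gx [CharZero k] [IsAlgClosed k] (h : Hyp X)
    (hc : Crd H α β) (hHA : Ample (bas ![A, D] H)) (hpt : Pt H (AmL A D) α β)
    (hsurf : ∀ ζ : X.P, Algebra.trdeg k (X.kap ζ) = 2 →
      ∃ Q, SF H α β (fun m => (h0 (resD h.var ζ (bas ![A, D] m)) 1 : ℝ)) Q)
    (G : Fin 2 → ℤ) (hG : 0 < h0 (bas ![A, D] G) 1) (z : X.P) :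
    ∃ g Q, SF H α β g Q ∧ Stp H G (fun m => (hv z (bas ![A, D] m) : ℝ)) g := by
  obtain ⟨hN, hF, hFZ, hS⟩ := serP k K X h.var h.gen _ hHA
  obtain ⟨s, hs, hE⟩ := eff_of_pos _ hG
  obtain ⟨r, ζ, c, h1, h2, h3⟩ := chain_van h.var h.gen (bas ![A, D] H) hHA hN hF hFZ hS z _ hE
  obtain ⟨g, hgg⟩ := h.gen
  obtain ⟨Q, hQ⟩ := sum_sf h hc hHA hpt hsurf ζ c fun i => by
    rw [← h.tr]
    exact trdeg_lt_eq h.var hgg _ (h3 i)
  have key2 : ∀ m : Fin 2 → ℤ, hv z (bas ![A, D] m * (prin X s hs * bas ![A, D] G)⁻¹) =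
      hv z (bas ![A, D] (m - G)) := by
    intro m
    rw [hv_prin_inv, bas_sub]
  refine ⟨_, Q, hQ, fun m => ?_, fun m => ?_⟩
  · have h4 := h1 (bas ![A, D] m)
    rw [key2] at h4
    simp only [bas_shift] at h4
    show (hv z (bas ![A, D] m) : ℝ) ≤ (hv z (bas ![A, D] (m - G)) : ℝ) + ∑ i, _
    exact_mod_cast h4
  · obtain ⟨n₀, hn⟩ := h2 (bas ![A, D] m)
    refine ⟨n₀, fun n hn' => ?_⟩
    have h4 := hn n hn'
    rw [← bas_line, key2] at h4
    simp only [bas_shift] at h4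
    show (hv z (bas ![A, D] (m + n • H)) : ℝ) = (hv z (bas ![A, D] (m + n • H - G)) : ℝ) + ∑ i, _
    exact_mod_cast h4

end Pool.Agent.H20.TQ
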