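import Pool.Agent.H20.TQ.Srf
import Pool.Agent.H39.TQ.Nn

/-!
# [H20 TQ Wrg] THEOREM Q (MP_e49dc9_ag), chapter (2): no lattice points near `p` on the wrong side

`wrong_q`: `LowQ` (the lower bound on both sides of `p`) implies `WrgQ`.
-/

set_option autoImplicit false

namespace Pool.Agent.H20.TQ

open Pool.Agent.H54.RV Pool.Agent.H83.TU Pool.Agent.H83.TK Pool.Agent.H24.VP Pool.Agent.H39.TQ

variable {k K : Type} [Field k] [Field K] [Algebra k K] {X : Mod k K}
  {T : Cart X → Cart X → Cart X → ℝ} {l : Cart X → ℝ} {c : ℝ} {A D : Cart X} {s : ℝ}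

/-- `T(p,p,G) ≥ 0` if `G` has sections -/
theorem tpp_eff [CharZero k] (h : Hyp X) (hr : RR T l c) (ht : Ths A D s) {G : Cart X} (hG : 0 < h0 G 1) :
    0 ≤ tpp T A D s G := by
  refine tpp_nn ht hr.tri G fun B hB => ?_
  rw [hr.tri.s23, hr.tri.s12]
  exact eff_nn h hr hG hB

/-- `T(p,p,W)` for `W = b p + e A` -/
theorem tpp_w (ht : Tri T) (h3 : tp3 T A D s = 0) (a b : ℤ) :
    tpp T A D s (A ^ a * D ^ b) = (a - s * b) * tpp T A D s A := by
  have e1 : tpp T A D s (A ^ a * D ^ b) = b * tp3 T A D s + (a - s * b) * tpp T A D s A := by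
    unfold tpp tp3
    simp only [ht.add3, ht.zpow3]
    rw [ht.s23 D D A, ht.s12 D A D, ht.s23 A D A]
    ring
  rw [e1, h3, mul_zero, zero_add]

theorem wrong_q [CharZero k] (h : Hyp X) (ht : Pool.Agent.H39.TQ.Thr T l c A D s) (hα : 0 < tpp T A D s A)
    (hl : 0 < lp l A D s) (hlow : LowQ T l c A D s) : WrgQ s := by
  obtain ⟨C₀, ε₀, b₀, hε, hb⟩ := hlow
  obtain ⟨al, hal⟩ : ∃ al, al = tpp T A D s A := ⟨_, rfl⟩
  obtain ⟨L, hL⟩ : ∃ L, L = lp l A D s := ⟨_, rfl⟩
  rw [← hal] at hα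
  rw [← hL] at hl
  obtain ⟨c₁, hc⟩ : ∃ c₁, c₁ = min (min 1 ε₀) (L / (2 * al)) := ⟨_, rfl⟩
  have hc0 : 0 < c₁ := by rw [hc]; positivity
  have hc1 : c₁ ≤ 1 := by rw [hc]; exact (min_le_left _ _).trans (min_le_left _ _)
  have hc2 : c₁ ≤ ε₀ := by rw [hc]; exact (min_le_left _ _).trans (min_le_right _ _)
  have hc3 : c₁ * (2 * al) ≤ L := by
    have : c₁ ≤ L / (2 * al) := by rw [hc]; exact min_le_right _ _
    rwa [le_div_iff₀ (by positivity)] at this
  obtain ⟨M, hM⟩ : ∃ M, M = |tp T A D s A A| + |T A A A| + |l A| + |c| + |C₀| + 1 := ⟨_, rfl⟩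
  have hM0 : 0 < M := by rw [hM]; positivity
  obtain ⟨n, hn⟩ := exists_nat_gt (2 * M / L)
  rw [div_lt_iff₀ hl] at hn
  refine ⟨c₁, hc0, max b₀ (n + 1), fun a b h1 h2 => ?_⟩
  by_contra hcon
  push Not at hcon
  have hbb : b₀ ≤ b := (le_max_left _ _).trans h1
  have hbn : (n : ℤ) + 1 ≤ b := (le_max_right _ _).trans h1
  have hbn' : (n : ℝ) + 1 ≤ b := by exact_mod_cast hbn
  have hn0 : (0 : ℝ) ≤ n := Nat.cast_nonneg n
  have hb1 : (1 : ℝ) ≤ b := by linarith
  have hb0 : (0 : ℝ) < b := by linarith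
  obtain ⟨e, he⟩ : ∃ e, e = (a : ℝ) - s * b := ⟨_, rfl⟩
  have he0 : e < 0 := by rw [he]; linarith
  have hbe : -c₁ < b * e := by
    have : b * (s * b - a) = -(b * e) := by rw [he]; ring
    rw [this] at hcon
    linarith
  have hbe0 : b * e < 0 := mul_neg_of_pos_of_neg hb0 he0
  have he1 : -c₁ < e := by
    have : b * e ≤ 1 * e := mul_le_mul_of_nonpos_right hb1 he0.le
    linarith
  have k1 := hb a b hbb (by rw [← he]; linarith) (by rw [← he]; linarith)
  rw [w_chi ht.hr s ht.p3, ← he, ← hal, ← hL] at k1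
  have hpos : 0 < (h0 (A ^ a * D ^ b) 1 : ℝ) := by
    have b1 : -(b * L / 4) ≤ b * (b * e) * al / 2 := by
      have : -c₁ * (b * al) ≤ b * e * (b * al) := mul_le_mul_of_nonneg_right hbe.le (by positivity)
      have h5 : b * (c₁ * (2 * al)) ≤ b * L := mul_le_mul_of_nonneg_left hc3 hb0.le
      linarith
    have hbe2 : 0 ≤ b * e * e := (mul_pos_of_neg_of_neg hbe0 he0).le
    have hbe3 : b * e * e ≤ 1 := by
      have h5 : (-(b * e)) * (-e) ≤ 1 * 1 :=
        mul_le_mul (by linarith) (by linarith) (by linarith) (by norm_num)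
      linarith
    have b2 : -|tp T A D s A A| ≤ b * e * e * tp T A D s A A := by
      rw [neg_le]
      refine (neg_le_abs _).trans ?_
      rw [abs_mul, abs_of_nonneg hbe2]
      exact mul_le_of_le_one_left (abs_nonneg _) hbe3
    have b3 : -|T A A A| ≤ e ^ 3 * T A A A := by
      rw [neg_le]
      refine (neg_le_abs _).trans ?_
      rw [abs_mul, abs_pow]
      refine mul_le_of_le_one_left (abs_nonneg _) (pow_le_one₀ (abs_nonneg _) ?_)
      rw [abs_of_neg he0]
      linarith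
    have b4 : -|l A| ≤ e * l A := by
      rw [neg_le]
      refine (neg_le_abs _).trans ?_
      rw [abs_mul]
      refine mul_le_of_le_one_left (abs_nonneg _) ?_
      rw [abs_of_neg he0]
      linarith
    have b5 := neg_abs_le c
    have b6 := le_abs_self C₀
    have b7 : (n : ℝ) * L ≤ b * L := mul_le_mul_of_nonneg_right (by linarith) hl.le
    have b8 := abs_nonneg (tp T A D s A A)
    have b9 := abs_nonneg (T A A A)
    linarith
  have k2 := tpp_eff h ht.hr ht.toThs (G := A ^ a * D ^ b) (by exact_mod_cast hpos)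
  rw [tpp_w ht.hr.tri ht.p3, ← he, ← hal] at k2
  have k3 := mul_neg_of_neg_of_pos he0 hα
  linarith

end Pool.Agent.H20.TQ
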